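import Mathlib
import Pool.Agent.NPC.Defs

/-!
# Nondeterministic time `n ^ O(κ(n))` and reductions with one or two queries: definitions
-/

set_option autoImplicit false

namespace Pool.Agent.L0h77.CK

open Pool.Agent.NPC

/-- `κ (n)` can be computed in polynomial time if `n` is given in unary. -/
def Nice (κ : ℕ → ℕ) : Prop := PolyTime (fun x => List.replicate (κ x.length) true)

/-- The bound `(n + 2) ^ (c (κ(n) + 1))`. -/
def tb (κ : ℕ → ℕ) (c n : ℕ) : ℕ := (n + 2) ^ (c * (κ n + 1))

/-- Nondeterministic time `n ^ O(κ(n))`: there is a machine `V`, polynomial-time in the length of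
`x` and `w` together, such that `x` is in `L` if and only if `V` accepts `(x, w)` for some
certificate `w` of length at most `(|x| + 2) ^ (c (κ(|x|) + 1))`, `c` a constant. -/
def InNT (κ : ℕ → ℕ) (L : Set (List Bool)) : Prop :=
  ∃ (c : ℕ) (V : List Bool → List Bool), PolyTime V ∧
    ∀ x, x ∈ L ↔ ∃ w : List Bool, w.length ≤ tb κ c x.length ∧ V (pairBits x w) = [true]

/-- A polynomial-time Turing reduction from `L` to `A` which asks two questions, `f x` and `g x`,
and accepts if one of the answers is yes (a disjunctive truth-table reduction with two queries). -/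
def TwoQueries (L A : Set (List Bool)) : Prop :=
  ∃ f g : List Bool → List Bool, PolyTime f ∧ PolyTime g ∧ ∀ x, x ∈ L ↔ f x ∈ A ∨ g x ∈ A

/-- A polynomial-time Turing reduction from `L` to `A` which asks one question: the question on
input `x` is `f x`, and after the answer `b` the reduction accepts if `g` maps the pair of `x` and
`b` to `[true]`. -/
def OneQuery (L A : Set (List Bool)) : Prop :=
  ∃ f g : List Bool → List Bool, PolyTime f ∧ PolyTime g ∧
    ∀ x, x ∈ L ↔ ∃ b : Bool, (b = true ↔ f x ∈ A) ∧ g (pairBits x [b]) = [true]

end Pool.Agent.L0h77.CK
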