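import Pool.Agent.H660R2.NX.UnivSet
import Pool.Agent.L0h77.CK.Defs

/-!
# Powers with a cap, in polynomial time
-/

set_option autoImplicit false

namespace Pool.Agent.L0h77.CK

open Pool.Agent.NPC Pool.Agent.H660R2.NX Turing
open TDec (dec dec_toT toT_dec poly_dec)

attribute [local irreducible] unpair

/-- `min (b ^ e) N` for `1 ≤ b`. -/
def powc (b : ℕ) (e : List Unit) (N : ℕ) : ℕ := (fun v => min (v * b) N)^[e.length] (min 1 N)

theorem powc_iter {b N : ℕ} (hb : 1 ≤ b) : ∀ k : ℕ,
    (fun v => min (v * b) N)^[k] (min 1 N) = min (b ^ k) N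
  | 0 => by simp
  | k + 1 => by
    rw [Function.iterate_succ_apply', powc_iter hb k]
    rcases le_total (b ^ k) N with h | h
    · rw [min_eq_left h, pow_succ]
    · rw [min_eq_right h]
      have h1 : N ≤ N * b := Nat.le_mul_of_pos_right _ hb
      have h2 : N ≤ b ^ (k + 1) := by
        rw [pow_succ]
        exact h.trans (Nat.le_mul_of_pos_right _ hb)
      rw [min_eq_right h1, min_eq_right h2]

theorem powc_eq {b N : ℕ} (hb : 1 ≤ b) (e : List Unit) : powc b e N = min (b ^ e.length) N :=
  powc_iter hb _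

theorem iter_le {b N : ℕ} (k : ℕ) : (fun v => min (v * b) N)^[k] (min 1 N) ≤ N := by
  cases k with
  | zero => simp
  | succ k => rw [Function.iterate_succ_apply']; exact min_le_right _ _

theorem poly_powc : Poly (fun p : ℕ × List Unit × ℕ => powc p.1 p.2.1 p.2.2) := by
  unfold powc
  refine NPC.Poly.iterLen (l := fun p : ℕ × List Unit × ℕ => p.2.1) (s := fun p => min 1 p.2.2)
    (F := fun p v => min (v * p.1) p.2.2) (by fun_prop) (by fun_prop) (by fun_prop)
    (2 * Polynomial.X) ?_
  intro a k _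
  have h1 := sz_nat_mono_le (iter_le (b := a.1) (N := a.2.2) k)
  have h2 : sz a.2.2 ≤ sz a := by
    obtain ⟨x, y, z⟩ := a
    simp only [sz_pair]
    omega
  simp only [Polynomial.eval_mul, Polynomial.eval_X, Polynomial.eval_ofNat]
  omega

variable {A : Type} [TEnc A]

theorem UPoly.minr {m n : A → ℕ} (hm : Poly m) (hn : UPoly n) :
    UPoly (fun a => min (m a) (n a)) :=
  UPoly.of_le (NPC.Poly.min hm hn.toPoly) hn fun _ => min_le_right _ _

theorem two_pow_le {b N e : ℕ} (hb : 2 ≤ b) (h : N ≤ e) : N ≤ b ^ e :=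
  (Nat.lt_two_pow_self (n := N)).le.trans
    ((Nat.pow_le_pow_right (by norm_num) h).trans (Nat.pow_le_pow_left hb _))

/-- The capped power `min ((n + 2) ^ j) N`, in unary. -/
theorem upoly_cp {n j N : A → ℕ} (hn : Poly n) (hj : Poly j) (hN : UPoly N) :
    UPoly (fun a => min ((n a + 2) ^ j a) (N a)) := by
  have h1 : UPoly (fun a => min (j a) (N a)) := UPoly.minr hj hN
  have h2 : Poly (fun a => powc (n a + 2) (List.replicate (min (j a) (N a)) ()) (N a)) :=
    poly_powc.comp (f := fun a => (n a + 2, List.replicate (min (j a) (N a)) (), N a))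
      (NPC.Poly.pair (by fun_prop) (NPC.Poly.pair h1 hN.toPoly))
  have h3 : ∀ a, powc (n a + 2) (List.replicate (min (j a) (N a)) ()) (N a) =
      min ((n a + 2) ^ j a) (N a) := by
    intro a
    rw [powc_eq (by omega), List.length_replicate]
    rcases le_total (j a) (N a) with h | h
    · rw [min_eq_left h]
    · rw [min_eq_right h, min_eq_right (two_pow_le (by omega) le_rfl),
        min_eq_right (two_pow_le (by omega) h)]
  refine UPoly.of_le (h2.congr h3) hN fun a => min_le_right _ _

/-- A nice function of an unary number. -/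
theorem upoly_nice {κ : ℕ → ℕ} (hκ : Nice κ) {n : A → ℕ} (hn : UPoly n) :
    UPoly (fun a => κ (n a)) := by
  have h1 : Poly (fun x : List Bool => List.replicate (κ x.length) true) := poly_of_polyTime hκ
  have h2 : Poly (fun a => (List.replicate (n a) ()).map (fun _ => true)) :=
    NPC.Poly.map (F := fun _ _ => true) hn (NPC.Poly.const true)
  have h3 : Poly (fun a => ((List.replicate (κ (n a)) true).map (fun _ => ()))) := by
    have h4 : Poly (fun a => (List.replicate (κ ((List.replicate (n a) ()).map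
      (fun _ => true)).length) true)) := h1.comp h2
    refine (NPC.Poly.map (F := fun _ _ => ()) h4 (NPC.Poly.const ())).congr fun a => ?_
    simp
  exact h3.congr fun a => by simp

/-- The test `tb κ c n < N`. -/
theorem poly_tb_lt {κ : ℕ → ℕ} (hκ : Nice κ) (c : ℕ) {n N : A → ℕ} (hn : UPoly n) (hN : Poly N) :
    Poly (fun a => decide (tb κ c (n a) < N a)) := by
  have h1 : UPoly (fun a => c * (κ (n a) + 1)) :=
    (UPoly.const c).mul ((upoly_nice hκ hn).add (UPoly.const 1))
  have h2 : Poly (fun a => powc (n a + 2) (List.replicate (c * (κ (n a) + 1)) ()) (N a)) :=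
    poly_powc.comp (f := fun a => (n a + 2, List.replicate (c * (κ (n a) + 1)) (), N a))
      (NPC.Poly.pair (NPC.Poly.add hn.toPoly (NPC.Poly.const 2)) (NPC.Poly.pair h1 hN))
  have h3 : Poly (fun a => decide (powc (n a + 2) (List.replicate (c * (κ (n a) + 1)) ()) (N a) <
    N a)) := NPC.Poly.decide_lt h2 hN
  refine h3.congr fun a => ?_
  rw [powc_eq (by omega), List.length_replicate]
  unfold tb
  simp only [min_lt_iff, lt_irrefl, or_false]

/-- The bound `tb κ c n` with a cap, in unary. -/
theorem upoly_tbc {κ : ℕ → ℕ} (hκ : Nice κ) (c : ℕ) {n N : A → ℕ} (hn : UPoly n) (hN : UPoly N) :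
    UPoly (fun a => min (tb κ c (n a)) (N a)) := by
  have h1 : UPoly (fun a => c * (κ (n a) + 1)) :=
    (UPoly.const c).mul ((upoly_nice hκ hn).add (UPoly.const 1))
  have h2 : Poly (fun a => powc (n a + 2) (List.replicate (c * (κ (n a) + 1)) ()) (N a)) :=
    poly_powc.comp (f := fun a => (n a + 2, List.replicate (c * (κ (n a) + 1)) (), N a))
      (NPC.Poly.pair (NPC.Poly.add hn.toPoly (NPC.Poly.const 2)) (NPC.Poly.pair h1 hN.toPoly))
  refine UPoly.of_le (h2.congr fun a => ?_) hN fun a => min_le_right _ _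
  rw [powc_eq (by omega), List.length_replicate]
  rfl

/-- The number of binary digits. -/
theorem poly_size {n : A → ℕ} (hn : Poly n) : Poly (fun a => (n a).size) :=
  (NPC.Poly.length (NPC.Poly.natBits hn)).congr fun a => (Nat.size_eq_bits_len _).symm ▸ rfl

theorem self_lt_tb (κ : ℕ → ℕ) {c : ℕ} (hc : 1 ≤ c) (n : ℕ) : n + 1 < tb κ c n := by
  unfold tb
  have h1 : 1 ≤ c * (κ n + 1) := Nat.mul_pos hc (by omega)
  calc n + 1 < n + 2 := by omega
    _ = (n + 2) ^ 1 := (pow_one _).symm
    _ ≤ _ := Nat.pow_le_pow_right (by omega) h1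

theorem tb_mono {κ : ℕ → ℕ} (hκ : Monotone κ) {c m n : ℕ} (h : m ≤ n) : tb κ c m ≤ tb κ c n := by
  unfold tb
  exact (Nat.pow_le_pow_left (by omega) _).trans
    (Nat.pow_le_pow_right (by omega) (Nat.mul_le_mul_left _ (Nat.succ_le_succ (hκ h))))

theorem tb_mono_c (κ : ℕ → ℕ) {c d : ℕ} (h : c ≤ d) (n : ℕ) : tb κ c n ≤ tb κ d n :=
  Nat.pow_le_pow_right (by omega) (Nat.mul_le_mul_right _ h)

end Pool.Agent.L0h77.CK
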