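import Pool.Agent.L0h77.CK.SetD

/-!
# There is no reduction with one query
-/

set_option autoImplicit false

namespace Pool.Agent.L0h77.CK

open Pool.Agent.NPC Pool.Agent.H660R2.NX Turing
open TDec (dec dec_toT toT_dec poly_dec)

attribute [local irreducible] unpair

variable {κ β : ℕ → ℕ} {e₀ : Code} {p₀ : Polynomial ℕ}

/-- The exponent is at most `β`. -/
theorem kk_le (he₀ : IsCode e₀ (fun x => List.replicate (β x.length) true) p₀) (mβ : Monotone β)
    (n : ℕ) (h : (cd (st κ n).1).1 = e₀) : kk κ n ≤ β n := by
  unfold kk ex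
  rw [h]
  refine (min_le_right _ _).trans ?_
  cases h1 : U e₀ (un (st κ n).1) (st κ n).2 with
  | none => simp
  | some y =>
    have h2 := he₀.eq h1
    rw [Option.getD_some, h2, List.length_replicate, length_un]
    exact mβ (st_le n).1

/-- Every pair of polynomial-time functions is handled in some odd stage. -/
theorem exists_stage (he₀ : IsCode e₀ (fun x => List.replicate (β x.length) true) p₀)
    (uβ : Filter.Tendsto β Filter.atTop Filter.atTop)
    {f g : List Bool → List Bool} (hf : PolyTime f) (hg : PolyTime g) (κ : ℕ → ℕ) :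
    ∃ j, j % 2 = 1 ∧ (cd j).1 = e₀ ∧ ∀ n, (st κ n).1 = j → 1 ≤ kk κ n ∧
      (∀ m, Fj (kk κ n) j m = f (un m)) ∧
      ∀ m b, Gj (kk κ n) j m b = decide (g (pairBits (un m) [b]) = [true]) := by
  obtain ⟨e, p, he⟩ := U_complete hf
  obtain ⟨e', p', he'⟩ := U_complete hg
  obtain ⟨k, hk⟩ := exists_pow_bound p
  obtain ⟨k', hk'⟩ := exists_pow_bound (p'.comp (2 * Polynomial.X + 2))
  obtain ⟨k₀, hk₀⟩ := exists_pow_bound p₀
  obtain ⟨N₀, hN₀⟩ := (Filter.tendsto_atTop.1 uβ (k + k' + 1)).exists_forall_of_atTop
  set M := k + k' + 2 * k₀ + N₀ + 2 with hM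
  obtain ⟨v, hv, _, hlen⟩ := exists_dl (bits (e₀, e, e', List.replicate M ()))
  have h1 : M ≤ v := by
    refine le_trans ?_ hlen
    have h2 := length_lt_sz (List.replicate M ())
    rw [List.length_replicate] at h2
    rw [bits_length]
    simp only [sz_pair]
    omega
  have hcd : cd (2 * v + 1) = (e₀, e, e', List.replicate M ()) := by
    unfold cd
    rw [show (2 * v + 1) / 2 = v by omega, hv, unbits_bits]
    rfl
  refine ⟨2 * v + 1, by omega, by rw [hcd], fun n hn => ?_⟩
  have hkk : k + k' + 1 ≤ kk κ n := by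
    have h2 := st_big hn
    have h3 : p₀.eval (un (2 * v + 1)).length ≤ (st κ n).2 := by
      rw [length_un]
      refine (hk₀ _).trans (le_trans ?_ h2)
      calc (2 * v + 1 + 2) ^ k₀ ≤ ((2 * v + 2) ^ 2) ^ k₀ := Nat.pow_le_pow_left (by nlinarith) _
        _ = (2 * v + 2) ^ (2 * k₀) := (pow_mul _ _ _).symm
        _ ≤ _ := Nat.pow_le_pow_right (by omega) (by omega)
    have h4 := he₀ _ _ h3
    unfold kk ex
    rw [hn, hcd]
    simp only
    rw [h4, Option.getD_some, List.length_replicate, length_un]
    exact le_min (by omega) (hN₀ _ (by omega))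
  refine ⟨by omega, fun m => ?_, fun m b => ?_⟩
  · unfold Fj
    rw [hcd]
    simp only
    rw [he (un m) ((m + 2) ^ kk κ n) ?_]
    · rfl
    · rw [length_un]
      exact (hk m).trans (Nat.pow_le_pow_right (by omega) (by omega))
  · unfold Gj
    rw [hcd]
    simp only
    rw [he' (pairBits (un m) [b]) ((m + 2) ^ kk κ n) ?_]
    · congr 1
      rw [Option.some.injEq]
    · rw [length_pairBits, length_un]
      have h3 := hk' m
      simp only [Polynomial.eval_comp, Polynomial.eval_add, Polynomial.eval_mul,
        Polynomial.eval_X, Polynomial.eval_ofNat] at h3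
      exact h3.trans (Nat.pow_le_pow_right (by omega) (by omega))

theorem no_reduction (he₀ : IsCode e₀ (fun x => List.replicate (β x.length) true) p₀)
    (uβ : Filter.Tendsto β Filter.atTop Filter.atTop) : ¬ OneQuery (DD κ e₀) (AA κ) := by
  rintro ⟨f, g, hf, hg, hfg⟩
  obtain ⟨j, hj, hcd, hstage⟩ := exists_stage he₀ uβ hf hg κ
  -- the stage `j`
  obtain ⟨n1, hn1⟩ := st_unbounded κ (j + 1)
  obtain ⟨l, hl, hlj, _⟩ := st_pred n1 hn1
  have hl1 : (st κ (l + 1)).1 = j + 1 := by rw [hl, st_start, hn1]
  set a := (st κ l).2 with ha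
  have hal : a ≤ l := (st_le l).2
  have hst : ∀ n, a ≤ n → n ≤ l → st κ n = st κ l := fun n h1 h2 => le_of_start_le h1 h2
  have hst1 : ∀ n, a ≤ n → n ≤ l → (st κ n).1 = j := fun n h1 h2 => by rw [hst n h1 h2, hlj]
  set k := kk κ l with hk
  have hkk : ∀ n, a ≤ n → n ≤ l → kk κ n = k := fun n h1 h2 => by
    rw [hk]; unfold kk; rw [hst n h1 h2]
  obtain ⟨hk1, hF, hG⟩ := hstage l hlj
  rw [← hk] at hk1 hF hG
  have hact : ∀ n, a ≤ n → n ≤ l → j % 2 = 1 ∧ 1 ≤ k ∧ (cd j).1 = e₀ :=
    fun n h1 h2 => ⟨hj, hk1, hcd⟩
  -- the reduction, on unary inputs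
  have hred : ∀ n, DP κ e₀ n ↔ ∃ b : Bool, (b = true ↔ Fj k j n ∈ AA κ) ∧ Gj k j n b = true := by
    intro n
    have h1 := hfg (un n)
    have h2 : un n ∈ DD κ e₀ ↔ DP κ e₀ n := by
      unfold DD
      simp only [Set.mem_ofPred_eq, length_un, true_and]
    rw [← h2, h1]
    simp only [hF, hG, decide_eq_true_eq]
  by_cases hlong : ∃ n, a ≤ n ∧ n ≤ l ∧ lg κ k j n = true
  · -- the first long question
    classical
    obtain ⟨h1, h2, h3⟩ := Nat.find_spec hlong
    set n := Nat.find hlong with hn
    have hmin : ∀ m, a ≤ m → m < n → lg κ k j m = false := by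
      intro m h4 h5
      rw [Bool.eq_false_iff]
      intro h6
      exact Nat.find_min hlong h5 ⟨h4, by omega, h6⟩
    have hnA : Fj k j n ∉ AA κ := by
      intro h4
      refine h4.2.2 ⟨n, ⟨?_, ?_⟩, ?_, ?_, fun m h5 h6 => ?_⟩
      · rw [hst1 n h1 h2]; exact hj
      · rw [hkk n h1 h2]; exact hk1
      · rw [hst1 n h1 h2, hkk n h1 h2]
      · rw [hst1 n h1 h2, hkk n h1 h2]; exact h3
      · rw [hst n h1 h2, ← ha] at h5
        rw [hst1 n h1 h2, hkk n h1 h2]
        exact hmin m h5 h6
    have h4 := hred n
    have h5 : (∃ b : Bool, (b = true ↔ Fj k j n ∈ AA κ) ∧ Gj k j n b = true) ↔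
        Gj k j n false = true := by
      constructor
      · rintro ⟨b, hb1, hb2⟩
        cases b with
        | false => exact hb2
        | true => exact absurd (hb1.1 rfl) hnA
      · intro h6
        exact ⟨false, ⟨fun h => absurd h (by simp), fun h => absurd h hnA⟩, h6⟩
    rw [h5] at h4
    unfold DP at h4
    rw [hst1 n h1 h2, hkk n h1 h2] at h4
    cases h6 : Gj k j n false with
    | true =>
      rw [h6, h3] at h4
      have := h4.2 rfl
      simp at this
    | false =>
      rw [h6, h3] at h4
      have := h4.1 ⟨hact n h1 h2, Or.inl ⟨rfl, rfl⟩⟩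
      simp at this
  · -- all questions are short
    push Not at hlong
    have hs : ∀ n, a ≤ n → n ≤ l → lg κ k j n = false := by
      intro n h1 h2
      rw [Bool.eq_false_iff]
      exact hlong n h1 h2
    -- all verdicts are positive
    have hpos : ∀ n, a ≤ n → n ≤ l → Gj k j n false = false ∧ Gj k j n true = true ∧
        (DP κ e₀ n ↔ Fj k j n ∈ AA κ) := by
      intro n h1 h2
      have h4 := hred n
      have h6 := hs n h1 h2
      by_cases hA : Fj k j n ∈ AA κ
      · have h5 : (∃ b : Bool, (b = true ↔ Fj k j n ∈ AA κ) ∧ Gj k j n b = true) ↔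
            Gj k j n true = true := by
          constructor
          · rintro ⟨b, hb1, hb2⟩
            cases b with
            | false => exact absurd (hb1.2 hA) (by simp)
            | true => exact hb2
          · intro h7
            exact ⟨true, ⟨fun _ => hA, fun _ => rfl⟩, h7⟩
        rw [h5] at h4
        cases h7 : Gj k j n true with
        | false =>
          exfalso
          rw [h7] at h4
          have h8 : ¬ DP κ e₀ n := fun h => absurd (h4.1 h) (by simp)
          apply h8
          unfold DP
          rw [hst1 n h1 h2, hkk n h1 h2]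
          cases h9 : Gj k j n false with
          | false => exact ⟨hact n h1 h2, Or.inr (Or.inr (Or.inr (Or.inr ⟨h6, rfl, h7⟩)))⟩
          | true => exact ⟨hact n h1 h2, Or.inr (Or.inl ⟨h6, rfl, h7, hA⟩)⟩
        | true =>
          cases h9 : Gj k j n false with
          | false =>
            refine ⟨rfl, rfl, ?_⟩
            rw [h7] at h4
            exact ⟨fun _ => hA, fun _ => h4.2 rfl⟩
          | true =>
            exfalso
            rw [h7] at h4
            have h8 := h4.2 rfl
            unfold DP at h8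
            rw [hst1 n h1 h2, hkk n h1 h2, h6, h7, h9] at h8
            simp at h8
      · have h5 : (∃ b : Bool, (b = true ↔ Fj k j n ∈ AA κ) ∧ Gj k j n b = true) ↔
            Gj k j n false = true := by
          constructor
          · rintro ⟨b, hb1, hb2⟩
            cases b with
            | false => exact hb2
            | true => exact absurd (hb1.1 rfl) hA
          · intro h7
            exact ⟨false, ⟨fun h => absurd h (by simp), fun h => absurd h hA⟩, h7⟩
        rw [h5] at h4
        cases h9 : Gj k j n false with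
        | true =>
          exfalso
          rw [h9] at h4
          have h8 := h4.2 rfl
          unfold DP at h8
          rw [hst1 n h1 h2, hkk n h1 h2, h6, h9] at h8
          simp only [Bool.false_eq_true, false_and, true_and, false_or, Bool.true_eq_false,
            and_false, or_false] at h8
          exact hA h8.2.2
        | false =>
          cases h7 : Gj k j n true with
          | false =>
            exfalso
            rw [h9] at h4
            have h8 : ¬ DP κ e₀ n := fun h => absurd (h4.1 h) (by simp)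
            apply h8
            unfold DP
            rw [hst1 n h1 h2, hkk n h1 h2]
            exact ⟨hact n h1 h2, Or.inr (Or.inr (Or.inr (Or.inr ⟨h6, h9, h7⟩)))⟩
          | true =>
            refine ⟨rfl, rfl, ?_⟩
            rw [h9] at h4
            exact ⟨fun h => absurd (h4.1 h) (by simp), fun h => absurd h hA⟩
    -- the chain
    have hchain : ∀ n, a ≤ n → n < l → (Fj k j n ∈ AA κ ↔ Fj k j (n + 1) ∈ AA κ) := by
      intro n h1 h2
      obtain ⟨h3, h4, h5⟩ := hpos n h1 h2.le
      rw [← h5]
      unfold DP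
      rw [hst1 n h1 h2.le, hkk n h1 h2.le, hs n h1 h2.le, h3, h4, hst1 (n + 1) (by omega) h2,
        hs (n + 1) (by omega) h2]
      simp [hj, hk1, hcd]
    have hall : ∀ d, a + d ≤ l → (Fj k j a ∈ AA κ ↔ Fj k j (a + d) ∈ AA κ) := by
      intro d
      induction d with
      | zero => intro _; rfl
      | succ d ih =>
        intro hd
        rw [ih (by omega), hchain (a + d) (by omega) (by omega)]
        rfl
    have hend : Fj k j a ∈ AA κ ↔ Fj k j l ∈ AA κ := by
      obtain ⟨d, hd⟩ := Nat.exists_eq_add_of_le hal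
      have := hall d (by omega)
      rw [← hd] at this
      exact this
    obtain ⟨h3, h4, h5⟩ := hpos l hal le_rfl
    have h6 : DP κ e₀ l ↔ Fj k j a ∉ AA κ := by
      unfold DP
      rw [hlj, ← hk, hs l hal le_rfl, h3, h4, hl1, ← ha, hs a le_rfl hal]
      simp [hj, hk1, hcd]
    rw [h5, ← hend] at h6
    exact absurd h6 (by tauto)

end Pool.Agent.L0h77.CK
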