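import Pool.Agent.L0h77.CK.Stage

/-!
# The sets
-/

set_option autoImplicit false

namespace Pool.Agent.L0h77.CK

open Pool.Agent.NPC Pool.Agent.H660R2.NX Turing
open TDec (dec dec_toT toT_dec poly_dec)

attribute [local irreducible] unpair

/-! ### Lists coded by numbers -/

/-- The list coded by a number: the binary digits without the leading one. -/
def dl (k : ℕ) : List Bool := k.bits.reverse.tail.reverse

theorem bits_valB (l : List Bool) : (valB (l ++ [true])).bits = l ++ [true] := by
  rw [← normB_eq]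
  unfold normB
  rw [List.reverse_append]
  simp only [List.reverse_cons, List.reverse_nil, List.nil_append, List.singleton_append,
    List.foldl_cons]
  have key : ∀ (l acc : List Bool), acc ≠ [] →
      l.foldl (fun acc b => if b = false ∧ acc = [] then [] else b :: acc) acc = l.reverse ++ acc := by
    intro l
    induction l with
    | nil => intro acc _; rfl
    | cons b l ih =>
      intro acc hacc
      rw [List.foldl_cons, if_neg (fun h => hacc h.2), ih _ (by simp)]
      simp
  rw [if_neg (by simp), key _ _ (by simp)]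
  simp

theorem exists_dl (l : List Bool) : ∃ k, dl k = l ∧ k < 2 ^ (l.length + 1) ∧ l.length ≤ k := by
  refine ⟨valB (l ++ [true]), ?_, ?_, ?_⟩
  · unfold dl
    rw [bits_valB]
    simp
  · have := valB_lt (l ++ [true])
    simpa using this
  · rw [valB_append]
    simp only [valB_cons, if_true, valB_nil]
    have := (Nat.lt_two_pow_self (n := l.length)).le
    omega

variable {A : Type} [TEnc A] {κ : ℕ → ℕ}

theorem poly_dl {k : A → ℕ} (hk : Poly k) : Poly (fun a => dl (k a)) := by
  have := NPC.Poly.natBits hk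
  unfold dl
  fun_prop

/-! ### The functions of a stage -/

/-- The string of `n` ones. -/
def un (n : ℕ) : List Bool := List.replicate n true

theorem length_un (n : ℕ) : (un n).length = n := List.length_replicate

theorem poly_un {n : A → ℕ} (hn : UPoly n) : Poly (fun a => un (n a)) := by
  refine (NPC.Poly.map (F := fun _ _ => true) hn (NPC.Poly.const true)).congr fun a => ?_
  simp [un]

/-- The codes of the three programs of stage `j`: an exponent, a question and a verdict. -/
def cd (j : ℕ) : Code × Code × Code × List Unit :=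
  (unbits (Code × Code × Code × List Unit) (dl (j / 2))).getD
    ((T.nil, []), (T.nil, []), (T.nil, []), [])

theorem poly_cd {j : A → ℕ} (hj : Poly j) : Poly (fun a => cd (j a)) := by
  have h1 : Poly (fun a => dl (j a / 2)) := poly_dl (by fun_prop)
  have h2 : Poly (unbits (Code × Code × Code × List Unit)) := poly_unbits
  have h3 : Poly (fun a => unbits (Code × Code × Code × List Unit) (dl (j a / 2))) := h2.comp h1
  unfold cd
  fun_prop

/-- The exponent of stage `j` if it starts at `a`. -/
def ex (s : ℕ × ℕ) : ℕ := min s.1 ((U (cd s.1).1 (un s.1) s.2).getD []).length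

theorem ex_le (s : ℕ × ℕ) : ex s ≤ s.1 := min_le_left _ _

theorem poly_ex {s : A → ℕ × ℕ} (hs1 : UPoly (fun a => (s a).1)) (hs2 : UPoly (fun a => (s a).2)) :
    Poly (fun a => ex (s a)) := by
  have h0 : Poly (fun a => (s a).1) := hs1.toPoly
  have h1 := poly_cd h0
  have h2 : Poly (fun a => U (cd (s a).1).1 (un (s a).1) (s a).2) := by
    have h3 : Poly (fun a => U (cd (s a).1).1 (un (s a).1)
        (List.replicate (s a).2 ()).length) :=
      poly_U.comp (f := fun a => ((cd (s a).1).1, un (s a).1, List.replicate (s a).2 ()))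
        (NPC.Poly.pair h1.fst (NPC.Poly.pair (poly_un hs1) hs2))
    exact h3.congr fun a => by rw [List.length_replicate]
  unfold ex
  fun_prop

/-- The question of stage `j` on the input `1 ^ n`, computed with at most `N` steps. -/
def Fc (N k j n : ℕ) : List Bool := (U (cd j).2.1 (un n) (min ((n + 2) ^ k) N)).getD []

/-- The question of stage `j` on the input `1 ^ n`. -/
def Fj (k j n : ℕ) : List Bool := (U (cd j).2.1 (un n) ((n + 2) ^ k)).getD []

/-- The verdict of stage `j` on the input `1 ^ n` after the answer `b`, with at most `N` steps. -/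
def Gc (N k j n : ℕ) (b : Bool) : Bool :=
  decide (U (cd j).2.2.1 (pairBits (un n) [b]) (min ((n + 2) ^ k) N) = some [true])

/-- The verdict of stage `j` on the input `1 ^ n` after the answer `b`. -/
def Gj (k j n : ℕ) (b : Bool) : Bool :=
  decide (U (cd j).2.2.1 (pairBits (un n) [b]) ((n + 2) ^ k) = some [true])

theorem Fc_eq {N k j n : ℕ} (h : (n + 2) ^ k ≤ N) : Fc N k j n = Fj k j n := by
  unfold Fc Fj
  rw [min_eq_left h]

theorem Gc_eq {N k j n : ℕ} (h : (n + 2) ^ k ≤ N) (b : Bool) : Gc N k j n b = Gj k j n b := by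
  unfold Gc Gj
  rw [min_eq_left h]

theorem poly_Fc {N k j n : A → ℕ} (hN : UPoly N) (hk : Poly k) (hj : Poly j) (hn : UPoly n) :
    Poly (fun a => Fc (N a) (k a) (j a) (n a)) := by
  have h1 : UPoly (fun a => min ((n a + 2) ^ k a) (N a)) := upoly_cp hn.toPoly hk hN
  have h2 : Poly (fun a => U (cd (j a)).2.1 (un (n a)) (min ((n a + 2) ^ k a) (N a))) := by
    have h3 : Poly (fun a => U (cd (j a)).2.1 (un (n a))
        (List.replicate (min ((n a + 2) ^ k a) (N a)) ()).length) :=
      poly_U.comp (f := fun a => ((cd (j a)).2.1, un (n a),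
        List.replicate (min ((n a + 2) ^ k a) (N a)) ()))
        (NPC.Poly.pair (poly_cd hj).snd.fst (NPC.Poly.pair (poly_un hn) h1))
    exact h3.congr fun a => by rw [List.length_replicate]
  unfold Fc
  fun_prop

theorem poly_Gc {N k j n : A → ℕ} (hN : UPoly N) (hk : Poly k) (hj : Poly j) (hn : UPoly n)
    (b : Bool) : Poly (fun a => Gc (N a) (k a) (j a) (n a) b) := by
  have h1 : UPoly (fun a => min ((n a + 2) ^ k a) (N a)) := upoly_cp hn.toPoly hk hN
  have h4 : Poly (fun a => pairBits (un (n a)) [b]) := by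
    have := poly_un hn
    fun_prop
  have h2 : Poly (fun a => U (cd (j a)).2.2.1 (pairBits (un (n a)) [b])
      (min ((n a + 2) ^ k a) (N a))) := by
    have h3 : Poly (fun a => U (cd (j a)).2.2.1 (pairBits (un (n a)) [b])
        (List.replicate (min ((n a + 2) ^ k a) (N a)) ()).length) :=
      poly_U.comp (f := fun a => ((cd (j a)).2.2.1, pairBits (un (n a)) [b],
        List.replicate (min ((n a + 2) ^ k a) (N a)) ()))
        (NPC.Poly.pair (poly_cd hj).snd.snd.fst (NPC.Poly.pair h4 h1))
    exact h3.congr fun a => by rw [List.length_replicate]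
  unfold Gc
  exact NPC.Poly.dec_eq h2 (NPC.Poly.const _)

/-- The output of the universal function is short. -/
theorem U_length {e : Code} {x y : List Bool} {t : ℕ} (h : U e x t = some y) :
    y.length ≤ x.length + t := by
  have h0 : Inv (sz e.1 + 1) (e.2.length + 1) x.length 0
      (([e.1], x :: e.2.map (fun _ => [])) : List T × List (List Bool)) := by
    refine ⟨by simp, ?_, by simp, ?_⟩
    · intro c hc
      simp only [List.mem_singleton] at hc
      subst hc
      omega
    · intro v hv
      simp only [List.mem_cons, List.mem_map] at hv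
      rcases hv with rfl | ⟨_, _, rfl⟩
      · simp
      · simp
  have h1 := Inv.iterate (by omega) h0 t
  unfold U at h
  split_ifs at h with h2
  rw [Option.some.injEq] at h
  subst h
  rcases getD_mem_or (Pool.Agent.H660R2.NX.ustep^[t]
      (([e.1], x :: e.2.map (fun _ => [])) : List T × List (List Bool))).2 0 [] with h3 | h3
  · rw [h3]; simp
  · exact h1.reg _ h3

theorem length_Fj (k j n : ℕ) : (Fj k j n).length ≤ n + (n + 2) ^ k := by
  unfold Fj
  cases h : U (cd j).2.1 (un n) ((n + 2) ^ k) with
  | none => simp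
  | some y =>
    have := U_length h
    rw [length_un] at this
    exact this

/-- Is the question of stage `j` on the input `1 ^ n` long? -/
def lg (κ : ℕ → ℕ) (k j n : ℕ) : Bool := decide ((n + 2) ^ k < tb κ 1 (Fj k j n).length)

/-- The same with a bound on the number of steps. -/
def lgc (κ : ℕ → ℕ) (N k j n : ℕ) : Bool :=
  !(decide (tb κ 1 (Fc N k j n).length < min ((n + 2) ^ k) N + 1))

theorem lgc_eq {N k j n : ℕ} (h : (n + 2) ^ k ≤ N) : lgc κ N k j n = lg κ k j n := by
  unfold lgc lg
  rw [Fc_eq h, min_eq_left h, ← decide_not]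
  congr 1
  rw [eq_iff_iff, not_lt]
  exact Nat.lt_iff_add_one_le.symm

theorem poly_lgc (hκ : Nice κ) {N k j n : A → ℕ} (hN : UPoly N) (hk : Poly k) (hj : Poly j)
    (hn : UPoly n) : Poly (fun a => lgc κ (N a) (k a) (j a) (n a)) := by
  have h1 : UPoly (fun a => min ((n a + 2) ^ k a) (N a)) := upoly_cp hn.toPoly hk hN
  have h2 := poly_tb_lt hκ 1 (UPoly.length (poly_Fc hN hk hj hn)) (h1.toPoly.succ)
  unfold lgc
  exact h2.not

/-- The exponent at `n`. -/
def kk (κ : ℕ → ℕ) (n : ℕ) : ℕ := ex (st κ n)

theorem poly_kk (hκ : Nice κ) {n : A → ℕ} (hn : UPoly n) : Poly (fun a => kk κ (n a)) := by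
  have hs := poly_st hκ hn
  exact poly_ex (s := fun a => st κ (n a)) (UPoly.of_le hs.fst hn fun a => (st_le _).1)
    (UPoly.of_le hs.snd hn fun a => (st_le _).2)

/-! ### The excluded strings -/

/-- The excluded strings: the first long question of each odd stage with an exponent which is not
zero. -/
def E (κ : ℕ → ℕ) : Set (List Bool) :=
  {y | ∃ n, ((st κ n).1 % 2 = 1 ∧ 1 ≤ kk κ n) ∧ Fj (kk κ n) (st κ n).1 n = y ∧
    lg κ (kk κ n) (st κ n).1 n = true ∧
    ∀ m, (st κ n).2 ≤ m → m < n → lg κ (kk κ n) (st κ n).1 m = false}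

/-- Two excluded strings of the same length are equal. -/
theorem E_unique (mκ : Monotone κ) {y z : List Bool} (hy : y ∈ E κ) (hz : z ∈ E κ)
    (hl : y.length = z.length) : y = z := by
  obtain ⟨n, ⟨hn1, hn0⟩, hn2, hn3, hn4⟩ := hy
  obtain ⟨m, ⟨hm1, hm0⟩, hm2, hm3, hm4⟩ := hz
  have key : ∀ (n m : ℕ) (y z : List Bool), Fj (kk κ n) (st κ n).1 n = y →
      Fj (kk κ m) (st κ m).1 m = z → 1 ≤ kk κ m → lg κ (kk κ m) (st κ m).1 m = true →
      (st κ n).1 + 2 ≤ (st κ m).1 → (st κ n).1 % 2 = 1 → y.length < z.length := by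
    intro n m y z hy hz hk hlg hfar hodd
    have h1 := st_far mκ hfar
    unfold lg at hlg
    rw [decide_eq_true_eq, hz] at hlg
    have h2 : y.length ≤ (n + 3) ^ ((st κ n).1 + 1) := by
      rw [← hy]
      refine (length_Fj _ _ _).trans ?_
      have h3 : (n + 2) ^ kk κ n ≤ (n + 3) ^ (st κ n).1 :=
        (Nat.pow_le_pow_left (by omega) _).trans (Nat.pow_le_pow_right (by omega) (ex_le _))
      have h4 : n + 3 ≤ (n + 3) ^ (st κ n).1 := by
        calc n + 3 = (n + 3) ^ 1 := (pow_one _).symm
          _ ≤ _ := Nat.pow_le_pow_right (by omega) (by omega)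
      have h5 : (n + 3) ^ ((st κ n).1 + 1) = (n + 3) ^ (st κ n).1 * (n + 3) := pow_succ _ _
      nlinarith
    have h3 := tb_mono (c := 1) mκ h2
    have h4 := Nat.lt_two_pow_self (n := tb κ 1 ((n + 3) ^ ((st κ n).1 + 1)))
    have h5 : m ≤ (m + 2) ^ kk κ m := by
      calc m ≤ m + 2 := by omega
        _ = (m + 2) ^ 1 := (pow_one _).symm
        _ ≤ _ := Nat.pow_le_pow_right (by omega) hk
    by_contra hcon
    have h6 := tb_mono (c := 1) mκ (not_lt.1 hcon)
    omega
  rcases lt_trichotomy (st κ n).1 (st κ m).1 with h | h | h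
  · have := key n m y z hn2 hm2 hm0 hm3 (by omega) hn1
    omega
  · have h1 : st κ n = st κ m := by
      rcases le_total n m with h2 | h2
      · exact (st_const h2 h).symm
      · exact st_const h2 h.symm
    have h1' : kk κ n = kk κ m := by unfold kk; rw [h1]
    have h2 : n = m := by
      rcases lt_trichotomy n m with h3 | h3 | h3
      · have h4 := hm4 n (by rw [← h1]; exact (st_le n).2) h3
        rw [← h, ← h1', hn3] at h4
        exact absurd h4 (by simp)
      · exact h3
      · have h4 := hn4 m (by rw [h1]; exact (st_le m).2) h3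
        rw [h, h1', hm3] at h4
        exact absurd h4 (by simp)
    rw [← hn2, ← hm2, h2]
  · have := key m n z y hm2 hn2 hn0 hn3 (by omega) hm1
    omega

/-- The test for one number `n`, with at most `N` steps. -/
def EBt (κ : ℕ → ℕ) (N n : ℕ) (y : List Bool) : Bool :=
  (decide ((st κ n).1 % 2 = 1) && decide (1 ≤ kk κ n)) &&
    (!(decide (tb κ 1 y.length < min ((n + 2) ^ kk κ n) N + 1)) &&
      (decide (Fc N (kk κ n) (st κ n).1 n = y) &&
        (List.range n).all (fun m => decide (m < (st κ n).2) ||
          !(lgc κ N (kk κ n) (st κ n).1 (min m N)))))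

/-- The test for excluded strings. -/
def EB (κ : ℕ → ℕ) (N : ℕ) (y : List Bool) : Bool :=
  (List.range N).any (fun n => EBt κ N (min n N) y)

theorem poly_EBt (hκ : Nice κ) {N n : A → ℕ} {y : A → List Bool} (hN : UPoly N)
    (hn : UPoly n) (hy : Poly y) : Poly (fun a => EBt κ (N a) (n a) (y a)) := by
  have hs := poly_st hκ hn
  have hk := poly_kk hκ hn
  have h1 : Poly (fun a => decide ((st κ (n a)).1 % 2 = 1)) := by fun_prop
  have h1' : Poly (fun a => decide (1 ≤ kk κ (n a))) := by fun_prop
  have hc : UPoly (fun a => min ((n a + 2) ^ kk κ (n a)) (N a)) :=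
    upoly_cp hn.toPoly hk hN
  have h2 := (poly_tb_lt hκ 1 (UPoly.length hy) (hc.toPoly.succ)).not
  have hF := poly_Fc hN hk hs.fst hn
  have h3 : Poly (fun a => decide (Fc (N a) (kk κ (n a)) (st κ (n a)).1 (n a) = y a)) :=
    NPC.Poly.dec_eq hF hy
  have h4 : Poly (fun a => (List.range (n a)).all (fun m => decide (m < (st κ (n a)).2) ||
      !(lgc κ (N a) (kk κ (n a)) (st κ (n a)).1 (min m (N a))))) := by
    have hs' : Poly (fun p : A × ℕ => st κ (n p.1)) := hs.comp (by fun_prop)
    have hk' : Poly (fun p : A × ℕ => kk κ (n p.1)) := hk.comp (by fun_prop)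
    have h5 : Poly (fun p : A × ℕ => lgc κ (N p.1) (kk κ (n p.1)) (st κ (n p.1)).1
        (min p.2 (N p.1))) :=
      poly_lgc hκ (hN.comp (by fun_prop)) hk' hs'.fst
        (UPoly.minr (by fun_prop) (hN.comp (by fun_prop)))
    refine NPC.Poly.all (p := fun a m => decide (m < (st κ (n a)).2) ||
      !(lgc κ (N a) (kk κ (n a)) (st κ (n a)).1 (min m (N a)))) hn.range ?_
    fun_prop
  exact (h1.and h1').and (h2.and (h3.and h4))

theorem poly_EB (hκ : Nice κ) {N : A → ℕ} {y : A → List Bool} (hN : UPoly N)
    (hy : Poly y) : Poly (fun a => EB κ (N a) (y a)) := by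
  have h1 : Poly (fun p : A × ℕ => EBt κ (N p.1) (min p.2 (N p.1)) (y p.1)) :=
    poly_EBt hκ (hN.comp (by fun_prop)) (UPoly.minr (by fun_prop) (hN.comp (by fun_prop)))
      (by fun_prop)
  exact NPC.Poly.any (p := fun a m => EBt κ (N a) (min m (N a)) (y a)) hN.range h1

theorem EB_iff {N : ℕ} {y : List Bool} (hN : tb κ 1 y.length ≤ N) :
    EB κ N y = true ↔ y ∈ E κ := by
  unfold EB
  rw [List.any_eq_true]
  constructor
  · rintro ⟨n, hn, h⟩
    rw [List.mem_range] at hn
    rw [min_eq_left hn.le] at h
    unfold EBt at h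
    simp only [Bool.and_eq_true, decide_eq_true_eq, Bool.not_eq_true', decide_eq_false_iff_not,
      not_lt, List.all_eq_true, List.mem_range, Bool.or_eq_true] at h
    obtain ⟨⟨h1, h1'⟩, h2, h3, h4⟩ := h
    have h5 : (n + 2) ^ kk κ n < N := by
      by_contra hcon
      rw [min_eq_right (not_lt.1 hcon)] at h2
      omega
    rw [min_eq_left h5.le] at h2
    rw [Fc_eq h5.le] at h3
    refine ⟨n, ⟨h1, h1'⟩, h3, ?_, fun m hm hmn => ?_⟩
    · unfold lg
      rw [decide_eq_true_eq, h3]
      omega
    · have h6 := h4 m hmn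
      rcases h6 with h6 | h6
      · omega
      · have h7 : (m + 2) ^ kk κ n ≤ (n + 2) ^ kk κ n :=
          Nat.pow_le_pow_left (by omega) _
        rw [min_eq_left (by omega), lgc_eq (h7.trans h5.le)] at h6
        exact h6
  · rintro ⟨n, ⟨h1, h1'⟩, h2, h3, h4⟩
    unfold lg at h3
    rw [decide_eq_true_eq, h2] at h3
    have h5 : n < (n + 2) ^ kk κ n := by
      calc n < n + 2 := by omega
        _ = (n + 2) ^ 1 := (pow_one _).symm
        _ ≤ _ := Nat.pow_le_pow_right (by omega) h1'
    have h6 : (n + 2) ^ kk κ n ≤ N := by omega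
    refine ⟨n, List.mem_range.2 (by omega), ?_⟩
    rw [min_eq_left (by omega)]
    unfold EBt
    simp only [Bool.and_eq_true, decide_eq_true_eq, Bool.not_eq_true', decide_eq_false_iff_not,
      not_lt, List.all_eq_true, List.mem_range, Bool.or_eq_true]
    refine ⟨⟨h1, h1'⟩, ?_, ?_, fun m hm => ?_⟩
    · rw [min_eq_left h6]
      omega
    · rw [Fc_eq h6]
      exact h2
    · rcases lt_or_ge m (st κ n).2 with h7 | h7
      · exact Or.inl h7
      · right
        have h8 : (m + 2) ^ kk κ n ≤ (n + 2) ^ kk κ n :=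
          Nat.pow_le_pow_left (by omega) _
        rw [min_eq_left (by omega), lgc_eq (h8.trans h6)]
        exact h4 m h7 hm

end Pool.Agent.L0h77.CK
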