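import Pool.Agent.L0h77.CK.Diag

/-!
# The main theorem
-/

set_option autoImplicit false

namespace Pool.Agent.L0h77.CK

open Pool.Agent.NPC Pool.Agent.H660R2.NX Turing
open TDec (dec dec_toT toT_dec poly_dec)

attribute [local irreducible] unpair

variable {κ ρ α β : ℕ → ℕ}

theorem tb_mono_fun {κ ρ : ℕ → ℕ} (h : ∀ n, ρ n ≤ κ n) (c n : ℕ) : tb ρ c n ≤ tb κ c n :=
  Nat.pow_le_pow_right (by omega) (Nat.mul_le_mul_left _ (Nat.succ_le_succ (h n)))

theorem InNT.mono (hρ : Nice ρ) (h : ∀ n, ρ n ≤ κ n) {L : Set (List Bool)} (hL : InNT ρ L) :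
    InNT κ L := by
  obtain ⟨c, V, hV, h1, h2⟩ := exists_restricted hρ hL
  refine ⟨c, V, hV, fun x => ⟨fun hx => ?_, fun ⟨w, _, hw⟩ => (h1 x).2 ⟨w, h2 x w hw, hw⟩⟩⟩
  obtain ⟨w, hw1, hw2⟩ := (h1 x).1 hx
  exact ⟨w, hw1.trans (tb_mono_fun h _ _), hw2⟩

theorem nice_min (hα : Nice α) (hβ : Nice β) : Nice (fun n => min (α n) (β n)) := by
  have hn : UPoly (fun x : List Bool => x.length) := UPoly.length (by fun_prop)
  have h1 := upoly_nice hα hn
  have h2 := upoly_nice hβ hn
  have h3 := UPoly.minr h1.toPoly h2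
  exact polyTime_of_poly' (poly_un h3)

theorem InNP.inNT {L : Set (List Bool)} (hL : InNP L) : InNT κ L := by
  obtain ⟨V, p, hV, h⟩ := hL
  obtain ⟨c, hc⟩ := exists_pow_bound p
  refine inNT_of (d := fun x w => decide (w.length ≤ p.eval x.length) &&
    decide (V (pairBits x w) = [true])) c ?_ (fun x hx => ?_) (fun x w _ hw => ?_)
  · have h1 : UPoly (fun q : List Bool × List Bool => p.eval q.1.length) :=
      (UPoly.length (by fun_prop)).eval p
    have h2 : Poly V := poly_of_polyTime hV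
    have h3 : Poly (fun q : List Bool × List Bool => V (pairBits q.1 q.2)) :=
      h2.comp (by fun_prop)
    exact (NPC.Poly.decide_le (UPoly.length (by fun_prop)).toPoly h1.toPoly).and
      (NPC.Poly.dec_eq h3 (NPC.Poly.const _))
  · obtain ⟨w, hw1, hw2⟩ := (h x).1 hx
    refine ⟨w, hw1.trans ((hc _).trans ?_), by simp [hw1, hw2]⟩
    unfold tb
    exact Nat.pow_le_pow_right (by omega) (by nlinarith)
  · simp only [Bool.and_eq_true, decide_eq_true_eq] at hw
    exact (h x).2 ⟨w, hw.1, hw.2⟩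

theorem inNT_zero_iff (L : Set (List Bool)) : InNT (fun _ => 0) L ↔ InNP L := by
  refine ⟨fun ⟨c, V, hV, h⟩ => ⟨V, (Polynomial.X + 2) ^ c, hV, fun x => ?_⟩, InNP.inNT⟩
  rw [h x]
  simp [tb]

theorem main (hα : Nice α) (mα : Monotone α) (uα : Filter.Tendsto α Filter.atTop Filter.atTop) :
    ∃ A : Set (List Bool), InNT α A ∧ (∀ L, InNT α L → TwoQueries L A) ∧
      ∀ β : ℕ → ℕ, Nice β → Monotone β → Filter.Tendsto β Filter.atTop Filter.atTop →
        ∃ D : Set (List Bool), InNT α D ∧ InNT β D ∧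
          (∀ x ∈ D, x = List.replicate x.length true) ∧ ¬ OneQuery D A := by
  refine ⟨AA α, inNT_AA hα mα, fun L hL => AA_hard hα mα hL, fun β hβ mβ uβ => ?_⟩
  have hρ := nice_min hα hβ
  have mρ : Monotone (fun n => min (α n) (β n)) := fun a b h => min_le_min (mα h) (mβ h)
  have uρ : Filter.Tendsto (fun n => min (α n) (β n)) Filter.atTop Filter.atTop := by
    rw [Filter.tendsto_atTop] at uα uβ ⊢
    intro b
    filter_upwards [uα b, uβ b] with n h1 h2 using le_min h1 h2
  have l1 : ∀ n, (fun n => min (α n) (β n)) n ≤ α n := fun n => min_le_left _ _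
  have l2 : ∀ n, (fun n => min (α n) (β n)) n ≤ β n := fun n => min_le_right _ _
  generalize (fun n => min (α n) (β n)) = ρ at hρ mρ uρ l1 l2
  obtain ⟨e₀, p₀, he₀⟩ := U_complete hρ
  have he : IsCode e₀ (fun x => List.replicate (ρ x.length) true) p₀ := he₀
  have hD : InNT ρ (DD α e₀) := inNT_DD hα mα fun n h => kk_le he mρ n h
  exact ⟨DD α e₀, hD.mono hρ l1, hD.mono hρ l2, fun x hx => hx.1, no_reduction he uρ⟩

/-- A many-one reduction is a reduction with one query. -/
theorem Reduces.oneQuery {L A : Set (List Bool)} (h : Reduces L A) : OneQuery L A := by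
  obtain ⟨f, hf, hfx⟩ := h
  refine ⟨f, fun y => (unpair y).2, hf, polyTime_of_poly' (by fun_prop), fun x => ?_⟩
  simp only [unpair_pairBits, List.cons.injEq, and_true]
  rw [hfx x]
  constructor
  · intro h1
    exact ⟨true, ⟨fun _ => h1, fun _ => rfl⟩, rfl⟩
  · rintro ⟨b, hb1, hb2⟩
    exact hb1.1 hb2

end Pool.Agent.L0h77.CK
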