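import Pool.Agent.L0h77.CK.Lang

/-!
# The complete set
-/

set_option autoImplicit false

namespace Pool.Agent.L0h77.CK

open Pool.Agent.NPC Pool.Agent.H660R2.NX Turing
open TDec (dec dec_toT toT_dec poly_dec)

attribute [local irreducible] unpair

variable {A : Type} [TEnc A] {κ : ℕ → ℕ}

/-- The universal set. -/
def K (κ : ℕ → ℕ) : Set (List Bool) :=
  {y | ∃ w : List Bool, w.length ≤ tb κ 1 y.length ∧ vk y w = true}

/-- The set `A`. -/
def AA (κ : ℕ → ℕ) : Set (List Bool) := {y | y ≠ [] ∧ y.tail ∈ K κ ∧ y ∉ E κ}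

/-! ### Membership of the complete set -/

/-- The verifier of the set. -/
def dA (κ : ℕ → ℕ) (y w : List Bool) : Bool :=
  !(y.isEmpty) && (!(decide ((unpair w).2.length < tb κ 1 y.length)) &&
    (!(EB κ (unpair w).2.length y) &&
      (!(decide (tb κ 1 y.tail.length < (unpair w).1.length)) && vk y.tail (unpair w).1)))

theorem poly_tb_gt (hκ : Nice κ) (c : ℕ) {n N : A → ℕ} (hn : UPoly n) (hN : Poly N) :
    Poly (fun a => decide (N a < tb κ c (n a))) := by
  refine ((poly_tb_lt hκ c hn hN.succ).not).congr fun a => ?_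
  rw [← decide_not]
  congr 1
  rw [eq_iff_iff, not_lt]
  exact Nat.lt_iff_add_one_le.symm

theorem poly_dA (hκ : Nice κ) {y w : A → List Bool} (hy : Poly y) (hw : Poly w) :
    Poly (fun a => dA κ (y a) (w a)) := by
  have h1 : Poly (fun a => (unpair (w a)).1) := by fun_prop
  have h2 : Poly (fun a => (unpair (w a)).2) := by fun_prop
  have h3 := (poly_tb_gt hκ 1 (UPoly.length hy) (UPoly.length h2).toPoly).not
  have h4 := (poly_EB hκ (UPoly.length h2) hy).not
  have h5 := (poly_tb_lt hκ 1 (UPoly.length (NPC.Poly.tail hy)) (UPoly.length h1).toPoly).not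
  have h6 : Poly (fun a => vk (y a).tail (unpair (w a)).1) := poly_vk (NPC.Poly.tail hy) h1
  have h7 := (NPC.Poly.isEmpty hy).not
  exact h7.and (h3.and (h4.and (h5.and h6)))

theorem dA_sound {y w : List Bool} (h : dA κ y w = true) : y ∈ AA κ := by
  unfold dA at h
  simp only [Bool.and_eq_true, Bool.not_eq_true', decide_eq_false_iff_not, not_lt] at h
  obtain ⟨h1, h2, h3, h4, h5⟩ := h
  refine ⟨?_, ⟨(unpair w).1, h4, h5⟩, ?_⟩
  · rintro rfl
    simp at h1
  · intro h6
    rw [← EB_iff h2] at h6
    rw [h6] at h3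
    simp at h3

theorem tb_cube {κ : ℕ → ℕ} (c n : ℕ) : tb κ c n = (tb κ 1 n) ^ c := by
  unfold tb
  rw [← pow_mul]
  congr 1
  ring

theorem two_le_tb (κ : ℕ → ℕ) (n : ℕ) : 2 ≤ tb κ 1 n := by
  have := self_lt_tb κ (le_refl 1) n
  omega

theorem dA_complete (mκ : Monotone κ) {y : List Bool} (h : y ∈ AA κ) :
    ∃ w : List Bool, w.length ≤ tb κ 3 y.length ∧ dA κ y w = true := by
  obtain ⟨h1, ⟨w, hw, hvk⟩, h2⟩ := h
  refine ⟨pairBits w (List.replicate (tb κ 1 y.length) false), ?_, ?_⟩
  · rw [length_pairBits, List.length_replicate, tb_cube 3]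
    have h3 : tb κ 1 y.tail.length ≤ tb κ 1 y.length := by
      refine tb_mono mκ ?_
      rw [List.length_tail]
      omega
    have h4 := two_le_tb κ y.length
    generalize tb κ 1 y.length = t at *
    have h5 : t ^ 3 = t * t * t := by ring
    rw [h5]
    have h6 : 4 * t ≤ t * t * t := by nlinarith [Nat.mul_le_mul h4 h4]
    omega
  · unfold dA
    rw [unpair_pairBits]
    simp only [List.length_replicate, lt_irrefl, decide_false, Bool.not_false, Bool.true_and,
      Bool.and_eq_true, Bool.not_eq_true', decide_eq_false_iff_not, not_lt]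
    refine ⟨?_, ?_, hw, hvk⟩
    · cases y with
      | nil => exact absurd rfl h1
      | cons a b => rfl
    · rw [Bool.eq_false_iff]
      intro h3
      exact h2 ((EB_iff le_rfl).1 h3)

/-- From a verifier to membership in the class. -/
theorem inNT_of {L : Set (List Bool)} {d : List Bool → List Bool → Bool} (c : ℕ)
    (hd : Poly (fun p : List Bool × List Bool => d p.1 p.2))
    (h1 : ∀ x, x ∈ L → ∃ w : List Bool, w.length ≤ tb κ c x.length ∧ d x w = true)
    (h2 : ∀ x w : List Bool, w.length ≤ tb κ c x.length → d x w = true → x ∈ L) : InNT κ L := by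
  refine ⟨c, fun y => [d (unpair y).1 (unpair y).2], ?_, fun x => ?_⟩
  · refine polyTime_of_poly (g := fun y => d (unpair y).1 (unpair y).2) ?_
    exact hd.comp (f := fun y : List Bool => ((unpair y).1, (unpair y).2)) (by fun_prop)
  · simp only [unpair_pairBits, List.cons.injEq, and_true]
    exact ⟨h1 x, fun ⟨w, hw, hdw⟩ => h2 x w hw hdw⟩

theorem inNT_AA (hκ : Nice κ) (mκ : Monotone κ) : InNT κ (AA κ) :=
  inNT_of 3 (poly_dA hκ (by fun_prop) (by fun_prop)) (fun _ h => dA_complete mκ h)
    fun _ _ _ h => dA_sound h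

/-! ### Deciding membership by brute force -/

/-- The brute force test. -/
def bf (κ : ℕ → ℕ) (N : ℕ) (y : List Bool) : Bool :=
  !(y.isEmpty) && (!(EB κ N y) && (List.range N).any (fun k =>
    !(decide (tb κ 1 y.tail.length < (dl k).length)) && vk y.tail (dl k)))

theorem poly_bf (hκ : Nice κ) {N : A → ℕ} {y : A → List Bool} (hN : UPoly N)
    (hy : Poly y) : Poly (fun a => bf κ (N a) (y a)) := by
  have h1 := (NPC.Poly.isEmpty hy).not
  have h2 := (poly_EB hκ hN hy).not
  have h3 : Poly (fun p : A × ℕ => dl p.2) := poly_dl (by fun_prop)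
  have hy' : Poly (fun p : A × ℕ => (y p.1).tail) := by fun_prop
  have h4 := (poly_tb_lt hκ 1 (UPoly.length hy') (UPoly.length h3).toPoly).not
  have h5 : Poly (fun p : A × ℕ => vk (y p.1).tail (dl p.2)) := poly_vk hy' h3
  have h6 := NPC.Poly.any (p := fun a k => !(decide (tb κ 1 (y a).tail.length < (dl k).length)) &&
    vk (y a).tail (dl k)) hN.range (h4.and h5)
  exact h1.and (h2.and h6)

theorem bf_iff (mκ : Monotone κ) {N : ℕ} {y : List Bool}
    (hN : 2 ^ (tb κ 1 y.length + 1) ≤ N) : bf κ N y = true ↔ y ∈ AA κ := by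
  have h0 : tb κ 1 y.length ≤ N :=
    (Nat.lt_two_pow_self.le.trans (Nat.pow_le_pow_right (by norm_num) (Nat.le_succ _))).trans hN
  unfold bf
  simp only [Bool.and_eq_true, Bool.not_eq_true', List.any_eq_true, List.mem_range,
    decide_eq_false_iff_not, not_lt]
  constructor
  · rintro ⟨h1, h2, k, hk, h3, h4⟩
    refine ⟨?_, ⟨dl k, h3, h4⟩, ?_⟩
    · rintro rfl
      simp at h1
    · intro h5
      rw [← EB_iff h0] at h5
      rw [h5] at h2
      simp at h2
  · rintro ⟨h1, ⟨w, hw, hvk⟩, h2⟩
    refine ⟨?_, ?_, ?_⟩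
    · cases y with
      | nil => exact absurd rfl h1
      | cons a b => rfl
    · rw [Bool.eq_false_iff]
      intro h3
      exact h2 ((EB_iff h0).1 h3)
    · obtain ⟨k, hk1, hk2, _⟩ := exists_dl w
      refine ⟨k, hk2.trans_le (le_trans (Nat.pow_le_pow_right (by norm_num) ?_) hN), ?_⟩
      · have h3 : tb κ 1 y.tail.length ≤ tb κ 1 y.length := by
          refine tb_mono mκ ?_
          rw [List.length_tail]
          omega
        omega
      · rw [hk1]
        exact ⟨hw, hvk⟩

/-! ### Hardness -/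

theorem exists_pow_bound (p : Polynomial ℕ) : ∃ k, ∀ n, p.eval n ≤ (n + 2) ^ k := by
  induction p using Polynomial.induction_on' with
  | add p q hp hq =>
    obtain ⟨a, ha⟩ := hp
    obtain ⟨b, hb⟩ := hq
    refine ⟨max a b + 1, fun n => ?_⟩
    rw [Polynomial.eval_add, pow_succ]
    have h1 : (n + 2) ^ a ≤ (n + 2) ^ max a b := Nat.pow_le_pow_right (by omega) (le_max_left _ _)
    have h2 : (n + 2) ^ b ≤ (n + 2) ^ max a b := Nat.pow_le_pow_right (by omega) (le_max_right _ _)
    have h3 := ha n
    have h4 := hb n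
    nlinarith [Nat.zero_le ((n + 2) ^ max a b * n)]
  | monomial k c =>
    refine ⟨c + k, fun n => ?_⟩
    rw [Polynomial.eval_monomial, pow_add]
    refine Nat.mul_le_mul ?_ (Nat.pow_le_pow_left (by omega) _)
    exact (Nat.lt_two_pow_self (n := c)).le.trans (Nat.pow_le_pow_left (by omega) _)

/-- Restriction of the length of the certificates. -/
theorem exists_restricted (hκ : Nice κ) {L : Set (List Bool)} (hL : InNT κ L) :
    ∃ (c : ℕ) (V : List Bool → List Bool), PolyTime V ∧
      (∀ x, x ∈ L ↔ ∃ w : List Bool, w.length ≤ tb κ c x.length ∧ V (pairBits x w) = [true]) ∧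
      ∀ x w : List Bool, V (pairBits x w) = [true] → w.length ≤ tb κ c x.length := by
  obtain ⟨c, V, hV, hL⟩ := hL
  set W : List Bool → List Bool := fun y =>
    if decide (tb κ c (unpair y).1.length < (unpair y).2.length) = true then [] else V y with hW
  have hWp : Poly W := by
    have h1 : Poly (fun y : List Bool => (unpair y).1) := by fun_prop
    have h2 : Poly (fun y : List Bool => (unpair y).2) := by fun_prop
    exact NPC.Poly.ite (NPC.Poly.decide_bool (poly_tb_lt hκ c (UPoly.length h1)
      (UPoly.length h2).toPoly)) (NPC.Poly.const []) (poly_of_polyTime hV)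
  have key : ∀ x w : List Bool, W (pairBits x w) = [true] ↔
      w.length ≤ tb κ c x.length ∧ V (pairBits x w) = [true] := by
    intro x w
    rw [hW]
    simp only [unpair_pairBits, decide_eq_true_eq]
    split_ifs with h
    · simp; omega
    · simp only [not_lt] at h
      exact ⟨fun h' => ⟨h, h'⟩, fun h' => h'.2⟩
  refine ⟨c, W, polyTime_of_poly' hWp, fun x => ?_, fun x w h => ((key x w).1 h).1⟩
  rw [hL]
  simp only [key]
  exact ⟨fun ⟨w, h1, h2⟩ => ⟨w, h1, h1, h2⟩, fun ⟨w, _, h1, h2⟩ => ⟨w, h1, h2⟩⟩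

theorem ins_soundK {e : Code} {V : List Bool → List Bool} {p : Polynomial ℕ} (he : IsCode e V p)
    {z : List Bool} {m : ℕ} (h : ins e z m ∈ K κ) : ∃ w, V (pairBits z w) = [true] := by
  obtain ⟨w, _, hw⟩ := h
  unfold vk ins at hw
  rw [unbits_bits] at hw
  simp only [Option.elim_some, decide_eq_true_eq] at hw
  exact ⟨(unpair w).1, (he.eq hw).symm⟩

theorem ins_completeK {e : Code} {V : List Bool → List Bool} {p : Polynomial ℕ}
    (he : IsCode e V p) {z w : List Bool} {m : ℕ} (h : V (pairBits z w) = [true])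
    (hm : 2 * w.length + 1 + p.eval (pairBits z w).length ≤ tb κ 1 (ins e z m).length) :
    ins e z m ∈ K κ := by
  refine ⟨pairBits w (List.replicate (p.eval (pairBits z w).length) false), ?_, ?_⟩
  · rw [length_pairBits, List.length_replicate]
    exact hm
  · unfold vk ins
    rw [unbits_bits]
    simp only [Option.elim_some, decide_eq_true_eq, unpair_pairBits, List.length_map,
      List.length_replicate]
    rw [he _ _ le_rfl, h]

/-- Every language of the class reduces to the universal set. -/
theorem K_hard (hκ : Nice κ) (mκ : Monotone κ) {L : Set (List Bool)} (hL : InNT κ L) :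
    ∃ g : List Bool → List Bool, Poly g ∧ ∀ x, x ∈ L ↔ g x ∈ K κ := by
  obtain ⟨c, V, hV, h1, h2⟩ := exists_restricted hκ hL
  obtain ⟨e, p, he⟩ := U_complete hV
  obtain ⟨k, hk⟩ := exists_pow_bound p
  set q := (c + 4) * k + (c + 4) with hq
  refine ⟨fun x => ins e x ((x.length + 2) ^ q), ?_, fun x => ?_⟩
  · have h3 : UPoly (fun x : List Bool => (x.length + 2) ^ q) := by
      have := (UPoly.length (α := List Bool) (l := fun x => x) (by fun_prop)).eval
        ((Polynomial.X + 2) ^ q)
      refine this.congr fun x => ?_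
      simp
    unfold ins
    exact poly_of_polyTime (polyTime_bits (g := fun x : List Bool =>
      (e, x, List.replicate ((x.length + 2) ^ q) ()))
      (NPC.Poly.pair (NPC.Poly.const e) (NPC.Poly.pair NPC.Poly.id h3)))
  · constructor
    · intro hx
      obtain ⟨w, hw, hVw⟩ := (h1 x).1 hx
      refine ins_completeK (p := p) he hVw ?_
      have h4 : (x.length + 2) ^ q ≤ (ins e x ((x.length + 2) ^ q)).length := by
        have h5 := length_lt_sz (List.replicate ((x.length + 2) ^ q) ())
        rw [List.length_replicate] at h5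
        unfold ins
        rw [bits_length]
        simp only [sz_pair]
        omega
      refine le_trans ?_ (tb_mono mκ h4)
      set n := x.length with hn
      have h6 : n ≤ (n + 2) ^ q := by
        calc n ≤ n + 2 := by omega
          _ = (n + 2) ^ 1 := (pow_one _).symm
          _ ≤ _ := Nat.pow_le_pow_right (by omega) (by omega)
      set B := (n + 2) ^ (κ n + 1) with hB
      have hB2 : n + 2 ≤ B := by
        calc n + 2 = (n + 2) ^ 1 := (pow_one _).symm
          _ ≤ _ := Nat.pow_le_pow_right (by omega) (by omega)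
      have h7 : B ^ q ≤ tb κ 1 ((n + 2) ^ q) := by
        have h8 := mκ h6
        unfold tb
        calc B ^ q = ((n + 2) ^ q) ^ (κ n + 1) := by
              rw [hB, ← pow_mul, ← pow_mul, mul_comm]
          _ ≤ ((n + 2) ^ q + 2) ^ (κ n + 1) := Nat.pow_le_pow_left (by omega) _
          _ ≤ ((n + 2) ^ q + 2) ^ (1 * (κ ((n + 2) ^ q) + 1)) :=
              Nat.pow_le_pow_right (by omega) (by omega)
      refine le_trans ?_ h7
      have h8 : tb κ c n = B ^ c := by rw [tb_cube, hB]; simp [tb]
      rw [h8] at hw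
      rw [length_pairBits]
      have h9 := hk (2 * n + 1 + w.length)
      have hB1 : 2 ≤ B := by omega
      have h10 : 2 * n + 1 + w.length + 2 ≤ B ^ (c + 4) := by
        have e1 : B ^ (c + 4) = B ^ c * (B * B * (B * B)) := by ring
        have e2 : 1 ≤ B ^ c := Nat.one_le_pow _ _ (by omega)
        have e3 : 2 * B ≤ B * B * (B * B) := by nlinarith [Nat.mul_le_mul hB1 hB1]
        have e4 : 4 ≤ B * B * (B * B) := by nlinarith [Nat.mul_le_mul hB1 hB1]
        rw [e1]
        nlinarith [Nat.mul_le_mul e2 e3, Nat.mul_le_mul e2 e4]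
      have h11 : (2 * n + 1 + w.length + 2) ^ k ≤ B ^ ((c + 4) * k) := by
        rw [pow_mul]
        exact Nat.pow_le_pow_left h10 k
      have h12 : 2 * w.length + 1 + 1 ≤ B ^ (c + 4) := by
        have e1 : B ^ (c + 4) = B ^ c * (B * B * (B * B)) := by ring
        have e2 : 1 ≤ B ^ c := Nat.one_le_pow _ _ (by omega)
        have e4 : 4 ≤ B * B * (B * B) := by nlinarith [Nat.mul_le_mul hB1 hB1]
        rw [e1]
        nlinarith [Nat.mul_le_mul e2 e4, Nat.mul_le_mul (le_refl (B ^ c)) e4]
      have h13 : 1 ≤ B ^ ((c + 4) * k) := Nat.one_le_pow _ _ (by omega)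
      have h14 : B ^ q = B ^ ((c + 4) * k) * B ^ (c + 4) := by rw [hq, pow_add]
      rw [h14]
      have h15 : 2 ≤ B ^ (c + 4) := by omega
      nlinarith [Nat.mul_le_mul h13 (le_refl (B ^ (c + 4))),
        Nat.mul_le_mul (le_refl (B ^ ((c + 4) * k))) h15]
    · intro hx
      obtain ⟨w, hw⟩ := ins_soundK (p := p) he hx
      exact (h1 x).2 ⟨w, h2 x w hw, hw⟩

theorem K_to_AA (mκ : Monotone κ) (u : List Bool) :
    u ∈ K κ ↔ (false :: u ∈ AA κ ∨ true :: u ∈ AA κ) := by
  constructor
  · intro hu
    by_cases h1 : false :: u ∈ E κ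
    · right
      refine ⟨by simp, hu, fun h2 => ?_⟩
      have := E_unique mκ h1 h2 (by simp)
      simp at this
    · exact Or.inl ⟨by simp, hu, h1⟩
  · rintro (h | h)
    · exact h.2.1
    · exact h.2.1

/-- The set `A` is complete under reductions with two queries. -/
theorem AA_hard (hκ : Nice κ) (mκ : Monotone κ) {L : Set (List Bool)} (hL : InNT κ L) :
    TwoQueries L (AA κ) := by
  obtain ⟨g, hg, hgx⟩ := K_hard hκ mκ hL
  refine ⟨fun x => false :: g x, fun x => true :: g x, polyTime_of_poly' (by fun_prop),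
    polyTime_of_poly' (by fun_prop), fun x => ?_⟩
  rw [hgx, K_to_AA mκ]

end Pool.Agent.L0h77.CK
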