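import Pool.Agent.L0h77.CK.SetA

/-!
# The set which does not reduce
-/

set_option autoImplicit false

namespace Pool.Agent.L0h77.CK

open Pool.Agent.NPC Pool.Agent.H660R2.NX Turing
open TDec (dec dec_toT toT_dec poly_dec)

attribute [local irreducible] unpair

variable {A : Type} [TEnc A] {κ ρ : ℕ → ℕ} {e : Code}

/-- The lengths of the elements of the set `D`; `e` is the code of the exponent. -/
def DP (κ : ℕ → ℕ) (e : Code) (n : ℕ) : Prop :=
  ((st κ n).1 % 2 = 1 ∧ 1 ≤ kk κ n ∧ (cd (st κ n).1).1 = e) ∧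
  ((lg κ (kk κ n) (st κ n).1 n = true ∧ Gj (kk κ n) (st κ n).1 n false = false) ∨
  (lg κ (kk κ n) (st κ n).1 n = false ∧ Gj (kk κ n) (st κ n).1 n false = true ∧
    Gj (kk κ n) (st κ n).1 n true = false ∧ Fj (kk κ n) (st κ n).1 n ∈ AA κ) ∨
  (lg κ (kk κ n) (st κ n).1 n = false ∧ Gj (kk κ n) (st κ n).1 n false = false ∧
    Gj (kk κ n) (st κ n).1 n true = true ∧ (st κ (n + 1)).1 = (st κ n).1 ∧
    (lg κ (kk κ n) (st κ n).1 (n + 1) = true ∨ Fj (kk κ n) (st κ n).1 (n + 1) ∈ AA κ)) ∨
  (lg κ (kk κ n) (st κ n).1 n = false ∧ Gj (kk κ n) (st κ n).1 n false = false ∧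
    Gj (kk κ n) (st κ n).1 n true = true ∧ (st κ (n + 1)).1 ≠ (st κ n).1 ∧
    lg κ (kk κ n) (st κ n).1 (st κ n).2 = false ∧ Fj (kk κ n) (st κ n).1 (st κ n).2 ∉ AA κ) ∨
  (lg κ (kk κ n) (st κ n).1 n = false ∧ Gj (kk κ n) (st κ n).1 n false = false ∧
    Gj (kk κ n) (st κ n).1 n true = false))

/-- The set `D`. -/
def DD (κ : ℕ → ℕ) (e : Code) : Set (List Bool) := {x | x = un x.length ∧ DP κ e x.length}

/-- The main part of the verifier. -/
def core (κ : ℕ → ℕ) (N k j a n : ℕ) (same : Bool) (w : List Bool) : Bool :=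
  bif lgc κ N k j n then !(Gc N k j n false)
  else bif Gc N k j n false then (!(Gc N k j n true) && dA κ (Fc N k j n) w)
  else bif Gc N k j n true then
    (bif same then (lgc κ N k j (n + 1) || dA κ (Fc N k j (n + 1)) w)
      else (!(lgc κ N k j a) && !(bf κ (n + 1) (Fc N k j a))))
  else true

/-- The verifier of the set `D`. -/
def dD (κ : ℕ → ℕ) (e : Code) (x w : List Bool) : Bool :=
  x.all (fun b => b) && ((decide ((st κ x.length).1 % 2 = 1) && (decide (1 ≤ kk κ x.length) &&
    decide ((cd (st κ x.length).1).1 = e))) &&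
    (decide (min ((x.length + 1 + 2) ^ kk κ x.length) ((unpair w).2.length + 1) <
      (unpair w).2.length + 1) &&
      core κ (unpair w).2.length (kk κ x.length) (st κ x.length).1 (st κ x.length).2 x.length
        (decide ((st κ (x.length + 1)).1 = (st κ x.length).1)) (unpair w).1))

theorem poly_dD (hκ : Nice κ) (e : Code) :
    Poly (fun p : List Bool × List Bool => dD κ e p.1 p.2) := by
  have hw1 : Poly (fun p : List Bool × List Bool => (unpair p.2).1) := by fun_prop
  have hw2 : Poly (fun p : List Bool × List Bool => (unpair p.2).2) := by fun_prop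
  have hN : UPoly (fun p : List Bool × List Bool => (unpair p.2).2.length) := UPoly.length hw2
  have hn : UPoly (fun p : List Bool × List Bool => p.1.length) := UPoly.length (by fun_prop)
  have hn1 : UPoly (fun p : List Bool × List Bool => p.1.length + 1) := hn.add (UPoly.const 1)
  have hN1 : UPoly (fun p : List Bool × List Bool => (unpair p.2).2.length + 1) :=
    hN.add (UPoly.const 1)
  have hs := poly_st hκ hn
  have hs1 := poly_st hκ hn1
  have hk := poly_kk hκ hn
  have hj := hs.fst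
  have ha : UPoly (fun p : List Bool × List Bool => (st κ p.1.length).2) :=
    UPoly.of_le hs.snd hn fun p => (st_le _).2
  have h1 : Poly (fun p : List Bool × List Bool => p.1.all (fun b => b)) := by fun_prop
  have h2 : Poly (fun p : List Bool × List Bool => decide ((st κ p.1.length).1 % 2 = 1)) := by
    fun_prop
  have h2' : Poly (fun p : List Bool × List Bool => decide (1 ≤ kk κ p.1.length)) := by
    fun_prop
  have h2'' : Poly (fun p : List Bool × List Bool => decide ((cd (st κ p.1.length).1).1 = e)) :=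
    NPC.Poly.dec_eq (poly_cd hj).fst (NPC.Poly.const e)
  have h3 : Poly (fun p : List Bool × List Bool =>
      decide (min ((p.1.length + 1 + 2) ^ kk κ p.1.length) ((unpair p.2).2.length + 1) <
      (unpair p.2).2.length + 1)) :=
    NPC.Poly.decide_lt (upoly_cp hn1.toPoly hk hN1).toPoly hN1.toPoly
  have h4 := poly_lgc hκ hN hk hj hn
  have h5 := poly_Gc hN hk hj hn false
  have h6 := poly_Gc hN hk hj hn true
  have h7 := poly_dA hκ (poly_Fc hN hk hj hn) hw1
  have h8 : Poly (fun p : List Bool × List Bool =>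
      decide ((st κ (p.1.length + 1)).1 = (st κ p.1.length).1)) := by fun_prop
  have h9 := poly_lgc hκ hN hk hj hn1
  have h10 := poly_dA hκ (poly_Fc hN hk hj hn1) hw1
  have h11 := poly_lgc hκ hN hk hj ha
  have h12 := poly_bf hκ hn1 (poly_Fc hN hk hj ha)
  unfold dD core
  exact h1.and ((h2.and (h2'.and h2'')).and (h3.and (NPC.Poly.cond h4 h5.not
    (NPC.Poly.cond h5 (h6.not.and h7)
    (NPC.Poly.cond h6 (NPC.Poly.cond h8 (h9.or h10) (h11.not.and h12.not))
      (NPC.Poly.const true))))))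

/-- The last test is a decision. -/
theorem last_iff (mκ : Monotone κ) {n : ℕ} (h : (st κ (n + 1)).1 ≠ (st κ n).1)
    (hl : lg κ (kk κ n) (st κ n).1 (st κ n).2 = false) :
    bf κ (n + 1) (Fj (kk κ n) (st κ n).1 (st κ n).2) = true ↔
      Fj (kk κ n) (st κ n).1 (st κ n).2 ∈ AA κ := by
  refine bf_iff mκ ?_
  rcases st_succ (κ := κ) n with ⟨hR, _⟩ | ⟨_, h'⟩
  · unfold R at hR
    rw [decide_eq_true_eq] at hR
    refine le_trans (Nat.pow_le_pow_right (by norm_num) ?_) hR
    unfold lg at hl
    rw [decide_eq_false_iff_not, not_lt] at hl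
    have := self_lt_tb κ (le_refl 1) (((st κ n).2 + 2) ^ (st κ n).1)
    have h2 : ((st κ n).2 + 2) ^ kk κ n ≤ ((st κ n).2 + 2) ^ (st κ n).1 :=
      Nat.pow_le_pow_right (by omega) (ex_le _)
    omega
  · rw [h'] at h
    exact absurd rfl h

theorem all_iff (x : List Bool) : x.all (fun b => b) = true ↔ x = un x.length := by
  unfold un
  rw [List.all_eq_true, List.eq_replicate_iff]
  exact ⟨fun h => ⟨rfl, h⟩, fun h => h.2⟩

theorem core_eq {N n : ℕ} (hN : (n + 1 + 2) ^ kk κ n ≤ N) (same : Bool) (w : List Bool) :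
    core κ N (kk κ n) (st κ n).1 (st κ n).2 n same w =
    bif lg κ (kk κ n) (st κ n).1 n then !(Gj (kk κ n) (st κ n).1 n false)
    else bif Gj (kk κ n) (st κ n).1 n false then
      (!(Gj (kk κ n) (st κ n).1 n true) && dA κ (Fj (kk κ n) (st κ n).1 n) w)
    else bif Gj (kk κ n) (st κ n).1 n true then
      (bif same then (lg κ (kk κ n) (st κ n).1 (n + 1) || dA κ (Fj (kk κ n) (st κ n).1 (n + 1)) w)
        else (!(lg κ (kk κ n) (st κ n).1 (st κ n).2) &&
          !(bf κ (n + 1) (Fj (kk κ n) (st κ n).1 (st κ n).2))))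
    else true := by
  have h1 : (n + 2) ^ kk κ n ≤ N := (Nat.pow_le_pow_left (by omega) _).trans hN
  have h2 : ((st κ n).2 + 2) ^ kk κ n ≤ N := by
    have := (st_le (κ := κ) n).2
    exact (Nat.pow_le_pow_left (by omega) _).trans hN
  unfold core
  rw [lgc_eq h1, lgc_eq hN, lgc_eq h2, Gc_eq h1, Gc_eq h1, Fc_eq h1, Fc_eq hN, Fc_eq h2]

theorem dD_sound (mκ : Monotone κ) {x w : List Bool} (h : dD κ e x w = true) : x ∈ DD κ e := by
  unfold dD at h
  simp only [Bool.and_eq_true, all_iff, decide_eq_true_eq] at h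
  obtain ⟨h1, h2, h3, h4⟩ := h
  refine ⟨h1, h2, ?_⟩
  have h5 : (x.length + 1 + 2) ^ kk κ x.length ≤ (unpair w).2.length := by
    simp only [min_lt_iff, lt_irrefl, or_false] at h3
    omega
  rw [core_eq h5] at h4
  cases e1 : lg κ (kk κ x.length) (st κ x.length).1 x.length with
  | true =>
    rw [e1] at h4
    simp only [cond_true, Bool.not_eq_true'] at h4
    exact Or.inl ⟨rfl, h4⟩
  | false =>
    right
    rw [e1] at h4
    simp only [cond_false] at h4
    cases e2 : Gj (kk κ x.length) (st κ x.length).1 x.length false with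
    | true =>
      rw [e2] at h4
      simp only [cond_true, Bool.and_eq_true, Bool.not_eq_true'] at h4
      exact Or.inl ⟨rfl, rfl, h4.1, dA_sound h4.2⟩
    | false =>
      right
      rw [e2] at h4
      simp only [cond_false] at h4
      cases e3 : Gj (kk κ x.length) (st κ x.length).1 x.length true with
      | false => exact Or.inr (Or.inr ⟨rfl, rfl, rfl⟩)
      | true =>
        rw [e3] at h4
        simp only [cond_true] at h4
        by_cases e4 : (st κ (x.length + 1)).1 = (st κ x.length).1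
        · left
          simp only [e4, decide_true, cond_true, Bool.or_eq_true] at h4
          exact ⟨rfl, rfl, rfl, e4, h4.imp id dA_sound⟩
        · right
          left
          simp only [e4, decide_false, cond_false, Bool.and_eq_true, Bool.not_eq_true'] at h4
          refine ⟨rfl, rfl, rfl, e4, h4.1, fun h6 => ?_⟩
          rw [← last_iff mκ e4 h4.1, h4.2] at h6
          exact absurd h6 (by simp)

theorem dD_complete (mκ : Monotone κ) (hρ : ∀ n, (cd (st κ n).1).1 = e → kk κ n ≤ ρ n)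
    {x : List Bool} (h : x ∈ DD κ e) :
    ∃ w : List Bool, w.length ≤ tb ρ 8 x.length ∧ dD κ e x w = true := by
  obtain ⟨h1, h2, h3⟩ := h
  set n := x.length with hn
  set T := (n + 1 + 2) ^ kk κ n with hT
  have hj : 1 ≤ kk κ n := h2.2.1
  have hT3 : 3 ≤ T := by
    calc 3 ≤ (n + 1 + 2) := by omega
      _ = (n + 1 + 2) ^ 1 := (pow_one _).symm
      _ ≤ _ := Nat.pow_le_pow_right (by omega) hj
  -- it suffices to find a certificate for the core
  have key : ∀ w : List Bool, w.length ≤ T ^ 3 → core κ T (kk κ n) (st κ n).1 (st κ n).2 n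
      (decide ((st κ (n + 1)).1 = (st κ n).1)) w = true →
      ∃ w : List Bool, w.length ≤ tb ρ 8 n ∧ dD κ e x w = true := by
    intro w hw hcore
    refine ⟨pairBits w (List.replicate T false), ?_, ?_⟩
    · rw [length_pairBits, List.length_replicate]
      have h4 : T ^ 4 ≤ tb ρ 8 n := by
        have h5 := hρ n h2.2.2
        unfold tb
        calc T ^ 4 = (n + 1 + 2) ^ (kk κ n * 4) := by rw [hT, ← pow_mul]
          _ ≤ ((n + 2) ^ 2) ^ (kk κ n * 4) := Nat.pow_le_pow_left (by nlinarith) _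
          _ = (n + 2) ^ (2 * (kk κ n * 4)) := (pow_mul _ _ _).symm
          _ ≤ _ := Nat.pow_le_pow_right (by omega) (by omega)
      have h5 : T ^ 4 = T ^ 3 * T := pow_succ _ _
      have h6 : T ^ 3 = T * T * T := by ring
      have h7 : T * 9 ≤ T * T * T := by nlinarith [Nat.mul_le_mul hT3 hT3]
      nlinarith
    · unfold dD
      rw [unpair_pairBits]
      simp only [List.length_replicate]
      simp only [Bool.and_eq_true, all_iff, decide_eq_true_eq]
      refine ⟨h1, h2, ?_, hcore⟩
      rw [← hn, ← hT]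
      exact (min_le_left _ _).trans_lt (Nat.lt_succ_self T)
  have hcert : ∀ y : List Bool, tb κ 1 y.length ≤ T → y ∈ AA κ →
      ∃ w : List Bool, w.length ≤ T ^ 3 ∧ dA κ y w = true := by
    intro y hy hyA
    obtain ⟨w, hw, hd⟩ := dA_complete mκ hyA
    refine ⟨w, hw.trans ?_, hd⟩
    rw [tb_cube]
    exact Nat.pow_le_pow_left hy 3
  have hshort : ∀ m : ℕ, m ≤ n + 1 → lg κ (kk κ n) (st κ n).1 m = false →
      tb κ 1 (Fj (kk κ n) (st κ n).1 m).length ≤ T := by
    intro m hm hl
    unfold lg at hl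
    rw [decide_eq_false_iff_not, not_lt] at hl
    exact hl.trans (Nat.pow_le_pow_left (by omega) _)
  have h0 : ([] : List Bool).length ≤ T ^ 3 := Nat.zero_le _
  rcases h3 with ⟨e1, e2⟩ | ⟨e1, e2, e3, hA⟩ | ⟨e1, e2, e3, e4, hA⟩ | ⟨e1, e2, e3, e4, e5, hA⟩ |
    ⟨e1, e2, e3⟩
  · refine key [] h0 ?_
    rw [core_eq le_rfl, e1, e2]
    rfl
  · obtain ⟨w, hw, hd⟩ := hcert _ (hshort n (by omega) e1) hA
    refine key w hw ?_
    rw [core_eq le_rfl, e1, e2, e3, hd]
    rfl
  · by_cases e5 : lg κ (kk κ n) (st κ n).1 (n + 1) = true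
    · refine key [] h0 ?_
      rw [core_eq le_rfl, e1, e2, e3, e5]
      simp [e4]
    · have e6 : lg κ (kk κ n) (st κ n).1 (n + 1) = false := by simpa using e5
      obtain ⟨w, hw, hd⟩ := hcert _ (hshort (n + 1) le_rfl e6) (hA.resolve_left e5)
      refine key w hw ?_
      rw [core_eq le_rfl, e1, e2, e3, hd]
      simp [e4]
  · refine key [] h0 ?_
    have e6 : bf κ (n + 1) (Fj (kk κ n) (st κ n).1 (st κ n).2) = false := by
      rw [Bool.eq_false_iff]
      intro h6
      exact hA ((last_iff mκ e4 e5).1 h6)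
    rw [core_eq le_rfl, e1, e2, e3, e5, e6]
    simp [e4]
  · refine key [] h0 ?_
    rw [core_eq le_rfl, e1, e2, e3]
    rfl

theorem inNT_DD (hκ : Nice κ) (mκ : Monotone κ)
    (hρ : ∀ n, (cd (st κ n).1).1 = e → kk κ n ≤ ρ n) : InNT ρ (DD κ e) :=
  inNT_of 8 (poly_dD hκ e) (fun _ h => dD_complete mκ hρ h) fun _ _ _ h => dD_sound mκ h

end Pool.Agent.L0h77.CK
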