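import Pool.Agent.L0h77.CK.Base

/-!
# The stages
-/

set_option autoImplicit false

namespace Pool.Agent.L0h77.CK

open Pool.Agent.NPC Pool.Agent.H660R2.NX Turing
open TDec (dec dec_toT toT_dec poly_dec)

attribute [local irreducible] unpair

/-- May stage `j + 1` start at `b`, if stage `j` started at `a`? -/
def R (κ : ℕ → ℕ) (j a b : ℕ) : Bool := decide (2 ^ tb κ 1 ((a + 2) ^ j) ≤ b)

/-- One step: from the stage of `b - 1` to the stage of `b`. -/
def stp (κ : ℕ → ℕ) (s : ℕ × ℕ) (b : ℕ) : ℕ × ℕ := if R κ s.1 s.2 b then (s.1 + 1, b) else s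

/-- The stage of `n` and its first number. -/
def st (κ : ℕ → ℕ) : ℕ → ℕ × ℕ
  | 0 => (0, 0)
  | n + 1 => stp κ (st κ n) (n + 1)

variable {A : Type} [TEnc A] {κ : ℕ → ℕ}

theorem R_eq (j a b : ℕ) : R κ j a b = (decide (min ((a + 2) ^ j) b.size < b.size) &&
    decide (tb κ 1 (min ((a + 2) ^ j) b.size) < b.size)) := by
  unfold R
  rw [Bool.eq_iff_iff, Bool.and_eq_true, decide_eq_true_eq, decide_eq_true_eq,
    decide_eq_true_eq, ← Nat.lt_size]
  have h1 := self_lt_tb κ (le_refl 1) ((a + 2) ^ j)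
  rcases lt_or_ge ((a + 2) ^ j) b.size with h | h
  · rw [min_eq_left h.le]
    exact ⟨fun h2 => ⟨h, h2⟩, fun h2 => h2.2⟩
  · rw [min_eq_right h]
    exact ⟨fun h2 => absurd h2 (by omega), fun h2 => absurd h2.1 (lt_irrefl _)⟩

theorem poly_R (hκ : Nice κ) {j a b : A → ℕ} (hj : Poly j) (ha : Poly a)
    (hb : UPoly b) : Poly (fun x => R κ (j x) (a x) (b x)) := by
  have hS : Poly (fun x => (b x).size) := poly_size hb.toPoly
  have hU : UPoly (fun x => (b x).size) := UPoly.of_le hS hb fun x => NPC.Poly.size_le_self _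
  have hm : UPoly (fun x => min ((a x + 2) ^ j x) (b x).size) := upoly_cp ha hj hU
  have h1 : Poly (fun x => decide (min ((a x + 2) ^ j x) (b x).size < (b x).size)) :=
    NPC.Poly.decide_lt hm.toPoly hS
  have h2 := poly_tb_lt hκ 1 hm hS
  exact (h1.and h2).congr fun x => (R_eq _ _ _).symm

theorem st_eq_foldl (n : ℕ) : st κ n =
    (List.range n).foldl (fun s i => stp κ s (i + 1)) (0, 0) := by
  induction n with
  | zero => rfl
  | succ n ih => rw [List.range_succ, List.foldl_append, ← ih]; rfl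

theorem st_le (n : ℕ) : (st κ n).1 ≤ n ∧ (st κ n).2 ≤ n := by
  induction n with
  | zero => exact ⟨le_rfl, le_rfl⟩
  | succ n ih =>
    change (stp κ (st κ n) (n + 1)).1 ≤ n + 1 ∧ (stp κ (st κ n) (n + 1)).2 ≤ n + 1
    unfold stp
    split_ifs
    · exact ⟨by simp only; omega, le_rfl⟩
    · exact ⟨by omega, by omega⟩

theorem poly_st (hκ : Nice κ) {n : A → ℕ} (hn : UPoly n) :
    Poly (fun a => st κ (n a)) := by
  have hF : Poly (fun p : A × (ℕ × ℕ) × ℕ => stp κ p.2.1 (min (p.2.2 + 1) (n p.1))) := by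
    have h1 : UPoly (fun p : A × (ℕ × ℕ) × ℕ => min (p.2.2 + 1) (n p.1)) :=
      UPoly.minr (by fun_prop) (hn.comp (by fun_prop))
    have h2 : Poly (fun p : A × (ℕ × ℕ) × ℕ =>
        R κ p.2.1.1 p.2.1.2 (min (p.2.2 + 1) (n p.1))) :=
      poly_R hκ (by fun_prop) (by fun_prop) h1
    have h3 := h1.toPoly
    unfold stp
    exact NPC.Poly.ite (NPC.Poly.decide_bool h2)
      (NPC.Poly.pair (by fun_prop) h3) (by fun_prop)
  have key : ∀ (a : A) (k : ℕ), k ≤ n a → (List.range k).foldl
      (fun s i => stp κ s (min (i + 1) (n a))) (0, 0) = st κ k := by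
    intro a k
    induction k with
    | zero => intro _; rfl
    | succ k ih =>
      intro hk
      rw [List.range_succ, List.foldl_append, ih (by omega)]
      simp only [List.foldl_cons, List.foldl_nil]
      rw [min_eq_left (by omega)]
      rfl
  obtain ⟨q, hq⟩ := (hn.toPoly).sz_le
  refine (NPC.Poly.foldl (l := fun a => List.range (n a)) (s := fun _ => ((0, 0) : ℕ × ℕ))
    (F := fun a s i => stp κ s (min (i + 1) (n a))) hn.range (NPC.Poly.const _) hF
    (4 * q + 1) ?_).congr fun a => key a _ le_rfl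
  intro a k hk
  rw [List.length_range] at hk
  have h1 : (List.range (n a)).take k = List.range k := by
    rw [List.take_range, min_eq_left hk]
  rw [h1, key a k hk]
  have h2 := st_le (κ := κ) k
  have h3 := sz_nat_mono_le (h2.1.trans hk)
  have h4 := sz_nat_mono_le (h2.2.trans hk)
  have h5 := hq a
  have h6 : sz (st κ k) = sz (st κ k).1 + sz (st κ k).2 + 1 := sz_pair _ _
  simp only [Polynomial.eval_add, Polynomial.eval_mul, Polynomial.eval_ofNat,
    Polynomial.eval_one]
  omega

/-! ### Properties of the stages -/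

theorem st_succ (n : ℕ) : (R κ (st κ n).1 (st κ n).2 (n + 1) = true ∧
    st κ (n + 1) = ((st κ n).1 + 1, n + 1)) ∨
    (R κ (st κ n).1 (st κ n).2 (n + 1) = false ∧ st κ (n + 1) = st κ n) := by
  change (_ ∧ stp κ (st κ n) (n + 1) = _) ∨ (_ ∧ stp κ (st κ n) (n + 1) = _)
  unfold stp
  split_ifs with h
  · exact Or.inl ⟨h, rfl⟩
  · exact Or.inr ⟨by simpa using h, rfl⟩

theorem st_mono : Monotone (fun n => (st κ n).1) := by
  refine monotone_nat_of_le_succ fun n => ?_
  rcases st_succ (κ := κ) n with ⟨_, h⟩ | ⟨_, h⟩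
  · simp only [h]; omega
  · simp only [h]; exact le_rfl

theorem st_const {m n : ℕ} (h : m ≤ n) (he : (st κ m).1 = (st κ n).1) :
    st κ n = st κ m := by
  induction n, h using Nat.le_induction with
  | base => rfl
  | succ n hn ih =>
    have h1 : (st κ m).1 ≤ (st κ n).1 := st_mono hn
    rcases st_succ (κ := κ) n with ⟨_, h⟩ | ⟨_, h⟩
    · rw [h] at he
      simp only at he
      omega
    · rw [h] at he ⊢
      exact ih he

/-- The first number of a stage belongs to the stage. -/
theorem st_start (n : ℕ) : st κ (st κ n).2 = st κ n := by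
  induction n with
  | zero => rfl
  | succ n ih =>
    rcases st_succ (κ := κ) n with ⟨_, h⟩ | ⟨_, h⟩
    · rw [h]
      simp only
      exact h
    · rw [h]
      exact ih

theorem le_of_start_le {m n : ℕ} (h1 : (st κ n).2 ≤ m) (h2 : m ≤ n) : st κ m = st κ n := by
  have h3 : (st κ (st κ n).2).1 ≤ (st κ m).1 := st_mono h1
  have h4 : (st κ m).1 ≤ (st κ n).1 := st_mono h2
  rw [st_start] at h3
  exact (st_const h2 (le_antisymm h4 h3)).symm

theorem start_le_of_eq {m n : ℕ} (h : (st κ m).1 = (st κ n).1) : (st κ n).2 ≤ m := by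
  rcases le_total m n with h1 | h1
  · rw [st_const h1 h]
    exact (st_le m).2
  · exact (st_le n).2.trans h1

/-- There is a next stage. -/
theorem st_unbounded (κ : ℕ → ℕ) (J : ℕ) : ∃ n, (st κ n).1 = J := by
  induction J with
  | zero => exact ⟨0, rfl⟩
  | succ J ih =>
    obtain ⟨n, hn⟩ := ih
    by_contra hcon
    push Not at hcon
    have h1 : ∀ m, n ≤ m → st κ m = st κ n := by
      intro m hm
      induction m, hm using Nat.le_induction with
      | base => rfl
      | succ m hm ih =>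
        rcases st_succ (κ := κ) m with ⟨_, h⟩ | ⟨_, h⟩
        · exact absurd (by rw [h, ih, hn]) (hcon (m + 1))
        · rw [h, ih]
    set X := 2 ^ tb κ 1 (((st κ n).2 + 2) ^ J) with hX
    set m := max n X with hm
    have hnm : n ≤ m := le_max_left _ _
    have hXm : X ≤ m := le_max_right _ _
    rcases st_succ (κ := κ) m with ⟨_, h⟩ | ⟨h, _⟩
    · exact absurd (by rw [h, h1 m hnm, hn]) (hcon (m + 1))
    · rw [h1 m hnm, hn] at h
      unfold R at h
      rw [decide_eq_false_iff_not] at h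
      exact h (hXm.trans (Nat.le_succ m))

theorem st_pred {J : ℕ} : ∀ n : ℕ, (st κ n).1 = J + 1 → ∃ m, m + 1 = (st κ n).2 ∧
    (st κ m).1 = J ∧ R κ J (st κ m).2 (st κ n).2 = true
  | 0, h => by
    change 0 = J + 1 at h
    omega
  | n + 1, h => by
    rcases st_succ (κ := κ) n with ⟨hR, h'⟩ | ⟨_, h'⟩
    · rw [h'] at h ⊢
      simp only at h
      have h2 : (st κ n).1 = J := by omega
      refine ⟨n, rfl, h2, ?_⟩
      rw [h2] at hR
      exact hR
    · rw [h'] at h ⊢
      exact st_pred n h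

/-- Stages which are not neighbours are far apart. -/
theorem st_far (mκ : Monotone κ) {m n : ℕ} (h : (st κ m).1 + 2 ≤ (st κ n).1) :
    2 ^ tb κ 1 ((m + 3) ^ ((st κ m).1 + 1)) ≤ n := by
  obtain ⟨K, hK⟩ : ∃ K, (st κ n).1 = K + 1 := ⟨(st κ n).1 - 1, by omega⟩
  obtain ⟨b, hb, hbK, hR⟩ := st_pred n hK
  have hm : m < (st κ b).2 := by
    by_contra hcon
    have h1 : (st κ (st κ b).2).1 ≤ (st κ m).1 := st_mono (not_lt.1 hcon)
    rw [st_start] at h1
    omega
  unfold R at hR
  rw [decide_eq_true_eq] at hR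
  have h2 : (m + 3) ^ ((st κ m).1 + 1) ≤ ((st κ b).2 + 2) ^ K :=
    (Nat.pow_le_pow_left (by omega) _).trans (Nat.pow_le_pow_right (by omega) (by omega))
  exact (Nat.pow_le_pow_right (by norm_num) (tb_mono mκ h2)).trans
    (hR.trans (st_le n).2)

/-- The stages start late. -/
theorem st_big {J n : ℕ} (h : (st κ n).1 = J + 1) : (J + 2) ^ J ≤ (st κ n).2 := by
  obtain ⟨b, hb, hbK, hR⟩ := st_pred n h
  unfold R at hR
  rw [decide_eq_true_eq] at hR
  have h1 : J ≤ (st κ b).2 := by
    have h2 := (st_le (κ := κ) (st κ b).2).1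
    rw [st_start, hbK] at h2
    exact h2
  have h3 : (J + 2) ^ J ≤ ((st κ b).2 + 2) ^ J := Nat.pow_le_pow_left (by omega) _
  have h4 := self_lt_tb κ (le_refl 1) (((st κ b).2 + 2) ^ J)
  have h5 := Nat.lt_two_pow_self (n := tb κ 1 (((st κ b).2 + 2) ^ J))
  omega

end Pool.Agent.L0h77.CK
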